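import Mathlib

/-! Covering relations with one expanding direction, along one-parameter families. -/

namespace Pool.Agent.R206.Horse

open Set

/-- oriented crossing sub-interval -/
theorem sub_cross {f : ℝ → ℝ} {p q lo hi : ℝ} (hpq : p ≤ q) (hf : ContinuousOn f (Icc p q))
    (h1 : f p ≤ lo) (h2 : hi ≤ f q) (hlh : lo ≤ hi) :
    ∃ p' q', p ≤ p' ∧ p' ≤ q' ∧ q' ≤ q ∧ f p' = lo ∧ f q' = hi ∧
      ∀ t, p' ≤ t → t ≤ q' → lo ≤ f t ∧ f t ≤ hi := by
  -- the first time `f ≥ hi`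
  set A : Set ℝ := Icc p q ∩ f ⁻¹' Ici hi with hA
  have hAc : IsClosed A := hf.preimage_isClosed_of_isClosed isClosed_Icc isClosed_Ici
  have hqA : q ∈ A := ⟨⟨hpq, le_refl q⟩, h2⟩
  have hAb : BddBelow A := ⟨p, fun x hx => hx.1.1⟩
  set q' := sInf A with hq'
  have hq'A : q' ∈ A := hAc.csInf_mem ⟨q, hqA⟩ hAb
  have hpq' : p ≤ q' := hq'A.1.1
  have hq'q : q' ≤ q := hq'A.1.2
  have hfq' : f q' = hi := by
    have hc : ContinuousOn f (Icc p q') := hf.mono (Icc_subset_Icc le_rfl hq'q)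
    obtain ⟨c, hc1, hc2⟩ := intermediate_value_Icc hpq' hc ⟨h1.trans hlh, hq'A.2⟩
    have hcA : c ∈ A := ⟨⟨hc1.1, hc1.2.trans hq'q⟩, hc2.ge⟩
    have : q' ≤ c := csInf_le hAb hcA
    have : c = q' := le_antisymm hc1.2 this
    rw [← this]
    exact hc2
  have hlt : ∀ t, p ≤ t → t ≤ q' → f t ≤ hi := by
    intro t ht1 ht2
    by_contra hcon
    push Not at hcon
    have htA : t ∈ A := ⟨⟨ht1, ht2.trans hq'q⟩, hcon.le⟩
    have h3 : q' ≤ t := csInf_le hAb htA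
    have h4 : t = q' := le_antisymm ht2 h3
    rw [h4, hfq'] at hcon
    exact lt_irrefl _ hcon
  -- the last time before `q'` with `f ≤ lo`
  set B : Set ℝ := Icc p q' ∩ f ⁻¹' Iic lo with hB
  have hfc' : ContinuousOn f (Icc p q') := hf.mono (Icc_subset_Icc le_rfl hq'q)
  have hBc : IsClosed B := hfc'.preimage_isClosed_of_isClosed isClosed_Icc isClosed_Iic
  have hpB : p ∈ B := ⟨⟨le_refl p, hpq'⟩, h1⟩
  have hBb : BddAbove B := ⟨q', fun x hx => hx.1.2⟩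
  set p' := sSup B with hp'
  have hp'B : p' ∈ B := hBc.csSup_mem ⟨p, hpB⟩ hBb
  have hpp' : p ≤ p' := hp'B.1.1
  have hp'q' : p' ≤ q' := hp'B.1.2
  have hfp' : f p' = lo := by
    have hc : ContinuousOn f (Icc p' q') := hfc'.mono (Icc_subset_Icc hpp' le_rfl)
    obtain ⟨c, hc1, hc2⟩ := intermediate_value_Icc hp'q' hc ⟨hp'B.2, hlh.trans hfq'.ge⟩
    have hcB : c ∈ B := ⟨⟨hpp'.trans hc1.1, hc1.2⟩, hc2.le⟩
    have : c ≤ p' := le_csSup hBb hcB
    have : c = p' := le_antisymm this hc1.1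
    rw [← this]
    exact hc2
  refine ⟨p', q', hpp', hp'q', hq'q, hfp', hfq', ?_⟩
  intro t ht1 ht2
  refine ⟨?_, hlt t (hpp'.trans ht1) ht2⟩
  by_contra hcon
  push Not at hcon
  have htB : t ∈ B := ⟨⟨hpp'.trans ht1, ht2⟩, hcon.le⟩
  have h3 : t ≤ p' := le_csSup hBb htB
  have h4 : t = p' := le_antisymm h3 ht1
  rw [h4, hfp'] at hcon
  exact lt_irrefl _ hcon

/-- `f` maps the endpoints of `[p, q]` to the endpoints of `[lo, hi]` (in some order) and
`[p, q]` into `[lo, hi]`. -/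
def Crosses (f : ℝ → ℝ) (p q lo hi : ℝ) : Prop :=
  ((f p = lo ∧ f q = hi) ∨ (f p = hi ∧ f q = lo)) ∧
    ∀ t, p ≤ t → t ≤ q → lo ≤ f t ∧ f t ≤ hi

/-- unoriented crossing sub-interval -/
theorem sub_cross' {f : ℝ → ℝ} {p q lo hi : ℝ} (hpq : p ≤ q) (hf : ContinuousOn f (Icc p q))
    (h : (f p ≤ lo ∧ hi ≤ f q) ∨ (hi ≤ f p ∧ f q ≤ lo)) (hlh : lo ≤ hi) :
    ∃ p' q', p ≤ p' ∧ p' ≤ q' ∧ q' ≤ q ∧ Crosses f p' q' lo hi := by
  rcases h with h | h
  · obtain ⟨p', q', a, b, c, d, e, k⟩ := sub_cross hpq hf h.1 h.2 hlh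
    exact ⟨p', q', a, b, c, Or.inl ⟨d, e⟩, k⟩
  · have hf' : ContinuousOn (fun t => - f t) (Icc p q) := hf.neg
    obtain ⟨p', q', a, b, c, d, e, k⟩ :=
      sub_cross (f := fun t => - f t) (lo := -hi) (hi := -lo) hpq hf' (by linarith [h.1])
        (by linarith [h.2]) (by linarith)
    refine ⟨p', q', a, b, c, Or.inr ⟨by linarith, by linarith⟩, ?_⟩
    intro t h1 h2
    have := k t h1 h2
    constructor <;> linarith [this.1, this.2]

/-- nested compact intervals -/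
theorem nested (Good : ℕ → ℝ → ℝ → Prop) (h0 : ∃ p q, p ≤ q ∧ Good 0 p q)
    (hs : ∀ j p q, p ≤ q → Good j p q →
      ∃ p' q', p ≤ p' ∧ p' ≤ q' ∧ q' ≤ q ∧ Good (j + 1) p' q') :
    ∃ t, ∀ j, ∃ p q, p ≤ t ∧ t ≤ q ∧ Good j p q := by
  classical
  obtain ⟨p0, q0, hpq0, hg0⟩ := h0
  -- states
  let St := fun j : ℕ => {z : ℝ × ℝ // z.1 ≤ z.2 ∧ Good j z.1 z.2}
  have hstep : ∀ j (z : St j), ∃ z' : St (j + 1), z.1.1 ≤ z'.1.1 ∧ z'.1.2 ≤ z.1.2 := by
    rintro j ⟨⟨p, q⟩, h1, h2⟩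
    obtain ⟨p', q', a, b, c, d⟩ := hs j p q h1 h2
    exact ⟨⟨⟨p', q'⟩, b, d⟩, a, c⟩
  choose nx hnx using hstep
  let z : ∀ j, St j := fun j => Nat.rec (motive := St) ⟨⟨p0, q0⟩, hpq0, hg0⟩ (fun j z => nx j z) j
  have hz : ∀ j, z (j + 1) = nx j (z j) := fun j => rfl
  have hanti : Antitone fun n => Icc (z n).1.1 (z n).1.2 := by
    apply antitone_nat_of_succ_le
    intro n
    have h1 := hnx n (z n)
    rw [← hz n] at h1
    exact Icc_subset_Icc h1.1 h1.2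
  have hmem := ciSup_mem_iInter_Icc_of_antitone_Icc hanti (fun n => (z n).2.1)
  refine ⟨⨆ n, (z n).1.1, fun j => ⟨(z j).1.1, (z j).1.2, ?_, ?_, (z j).2.2⟩⟩
  · exact (mem_iInter.1 hmem j).1
  · exact (mem_iInter.1 hmem j).2

/-- the symbol sequence which is `true` exactly at powers of two -/
noncomputable def pw (j : ℕ) : Bool := by
  classical
  exact decide (∃ k : ℕ, j = 2 ^ k)

theorem pw_pow (k : ℕ) : pw (2 ^ k) = true := by
  classical
  simp [pw]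

theorem pw_add (k m : ℕ) (hm : 0 < m) (hk : m < 2 ^ k) : pw (2 ^ k + m) = false := by
  classical
  simp only [pw, decide_eq_false_iff_not]
  rintro ⟨l, hl⟩
  have h1 : 2 ^ k < 2 ^ l := by omega
  have h2 : k < l := (Nat.pow_lt_pow_iff_right (by norm_num)).1 h1
  have h3 : 2 ^ (k + 1) ≤ 2 ^ l := Nat.pow_le_pow_right (by norm_num) h2
  rw [pow_succ] at h3
  omega

/-- A sequence visiting, at the times `j * m + r`, the side `≥ b` exactly when `j` is a power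
of two and the side `≤ a < b` otherwise, is not asymptotically periodic. -/
theorem not_asymp_periodic {x p : ℕ → ℝ} {m r k : ℕ} {a b : ℝ} (hab : a < b) (hk : 0 < k)
    (hm : 0 < m)
    (hx1 : ∀ j, pw j = true → b ≤ x (j * m + r)) (hx2 : ∀ j, pw j = false → x (j * m + r) ≤ a)
    (hp : ∀ n, p (n + k) = p n) :
    ¬ Filter.Tendsto (fun n => x n - p n) Filter.atTop (nhds 0) := by
  intro hlim
  have hp' : ∀ i n, p (n + i * k) = p n := by
    intro i
    induction i with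
    | zero => intro n; simp
    | succ i ih =>
      intro n
      have : n + (i + 1) * k = (n + i * k) + k := by ring
      rw [this, hp, ih]
  rw [Metric.tendsto_atTop] at hlim
  obtain ⟨N, hN⟩ := hlim ((b - a) / 2) (by linarith)
  -- choose a power of two bigger than `N` and `k`
  obtain ⟨l, hl⟩ : ∃ l : ℕ, N + k < 2 ^ l := ⟨N + k, Nat.lt_two_pow_self⟩
  have h1 := hx1 (2 ^ l) (pw_pow l)
  have h2 := hx2 (2 ^ l + k) (pw_add l k hk (by omega))
  have e : (2 ^ l + k) * m + r = (2 ^ l * m + r) + m * k := by ring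
  rw [e] at h2
  have h3 : 2 ^ l ≤ 2 ^ l * m := Nat.le_mul_of_pos_right _ hm
  have n1 : N ≤ 2 ^ l * m + r := by omega
  have n2 : N ≤ (2 ^ l * m + r) + m * k := by omega
  have a1 := hN _ n1
  have a2 := hN _ n2
  rw [hp' m] at a2
  rw [Real.dist_eq, sub_zero] at a1 a2
  have b1 := abs_lt.1 a1
  have b2 := abs_lt.1 a2
  linarith [b1.1, b1.2, b2.1, b2.2]

end Pool.Agent.R206.Horse
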