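import Mathlib
import Pool.Agent.R206.Horse.Basic

/-! The recurrence `x' = (α + u + γ v + δ w) / (u + C v + D w)`, `δ ~ e^{3g}`, `C ~ e^{4g}`, for
large `g`: after the
substitution `x = e^{g y}` it is a small perturbation of a max-plus recurrence whose return map is
the doubling map. -/

namespace Pool.Agent.R206.Horse

open Real

/-- two sided estimate for one step, in logarithmic coordinates -/
structure Tr (a b c d : ℝ) : Prop where
  up : ∀ M K : ℝ, 0 ≤ M → a ≤ M → b - 10 ≤ M → 3 + c ≤ M → (K ≤ a ∨ K ≤ 4 + b) →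
    d ≤ M - K + 1 / 10000
  low : ∀ M K : ℝ, (K ≤ a ∨ K ≤ 3 + c) → a ≤ M → 4 + b ≤ M → c - 20 ≤ M →
    K - M - 1 / 10000 ≤ d

/-- the parameter region: `δ` of size `e^{3g}`, `C` of size `e^{4g}`, `α ≤ 1`, and `γ`, `D` tiny -/
structure Par (g α γ δ C D : ℝ) : Prop where
  g0 : 20000 ≤ g
  α0 : 0 ≤ α
  α1 : α ≤ 1
  γ0 : 0 ≤ γ
  γ1 : γ ≤ exp (-10 * g)
  δ0 : exp (3 * g) ≤ δ
  δ1 : δ ≤ 2 * exp (3 * g)
  C0 : exp (4 * g) ≤ C
  C1 : C ≤ 2 * exp (4 * g)
  D0 : 0 ≤ D
  D1 : D ≤ exp (-20 * g)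

theorem tr_of_step {g α γ δ C D a b c d : ℝ} (hP : Par g α γ δ C D)
    (h : exp (g * d) = (α + exp (g * a) + γ * exp (g * b) + δ * exp (g * c)) /
      (exp (g * a) + C * exp (g * b) + D * exp (g * c))) : Tr a b c d := by
  obtain ⟨hg, hα0, hα1, hγ0, hγ, hδ0, hδ1, hC0, hC1, hD0, hD⟩ := hP
  have hg0 : 0 < g := by linarith
  have hCpos : 0 < C := lt_of_lt_of_le (exp_pos _) hC0
  have hδpos : 0 < δ := lt_of_lt_of_le (exp_pos _) hδ0
  have hden : 0 < exp (g * a) + C * exp (g * b) + D * exp (g * c) := by positivity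
  have hγb : γ * exp (g * b) ≤ exp (g * (b - 10)) := by
    have : exp (g * (b - 10)) = exp (-10 * g) * exp (g * b) := by
      rw [← exp_add]; ring_nf
    rw [this]
    exact mul_le_mul_of_nonneg_right hγ (exp_pos _).le
  have hDc : D * exp (g * c) ≤ exp (g * (c - 20)) := by
    have : exp (g * (c - 20)) = exp (-20 * g) * exp (g * c) := by
      rw [← exp_add]; ring_nf
    rw [this]
    exact mul_le_mul_of_nonneg_right hD (exp_pos _).le
  have e3 : exp (3 * g) * exp (g * c) = exp (g * (3 + c)) := by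
    rw [← exp_add]; ring_nf
  have e4 : exp (4 * g) * exp (g * b) = exp (g * (4 + b)) := by
    rw [← exp_add]; ring_nf
  have δc0 : exp (g * (3 + c)) ≤ δ * exp (g * c) := by
    rw [← e3]
    exact mul_le_mul_of_nonneg_right hδ0 (exp_pos _).le
  have δc1 : δ * exp (g * c) ≤ 2 * exp (g * (3 + c)) := by
    rw [← e3, ← mul_assoc]
    exact mul_le_mul_of_nonneg_right hδ1 (exp_pos _).le
  have Cb0 : exp (g * (4 + b)) ≤ C * exp (g * b) := by
    rw [← e4]
    exact mul_le_mul_of_nonneg_right hC0 (exp_pos _).le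
  have Cb1 : C * exp (g * b) ≤ 2 * exp (g * (4 + b)) := by
    rw [← e4, ← mul_assoc]
    exact mul_le_mul_of_nonneg_right hC1 (exp_pos _).le
  have hγ0' : 0 ≤ γ * exp (g * b) := by positivity
  have hD0' : 0 ≤ D * exp (g * c) := by positivity
  have mono : ∀ {p q : ℝ}, p ≤ q → exp (g * p) ≤ exp (g * q) := by
    intro p q hpq
    exact exp_le_exp.2 (mul_le_mul_of_nonneg_left hpq hg0.le)
  have h2 : (5 : ℝ) ≤ exp 2 := by
    have h1 := Real.exp_one_gt_d9
    have e : exp 2 = exp 1 * exp 1 := by rw [← exp_add]; norm_num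
    rw [e]
    nlinarith
  have heps : (2 : ℝ) ≤ g * (1 / 10000) := by linarith
  refine ⟨?_, ?_⟩
  · intro M K hM ha hb hc hK
    have num : α + exp (g * a) + γ * exp (g * b) + δ * exp (g * c) ≤
        5 * exp (g * M) := by
      have h1 : (1 : ℝ) ≤ exp (g * M) := by
        have := mono hM
        rwa [mul_zero, exp_zero] at this
      have h2 := mono ha
      have h3 := hγb.trans (mono hb)
      have h4 := mono hc
      linarith
    have hdn : exp (g * K) ≤ exp (g * a) + C * exp (g * b) + D * exp (g * c) := by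
      have p1 := exp_pos (g * a)
      have p2 := exp_pos (g * (4 + b))
      rcases hK with hK | hK
      · have := mono hK
        linarith
      · have := mono hK
        linarith
    have key : exp (g * d) ≤ exp (g * (M - K + 1 / 10000)) := by
      rw [h, div_le_iff₀ hden]
      have e5 : exp (g * (M - K + 1 / 10000)) * exp (g * K) =
          exp (g * M) * exp (g * (1 / 10000)) := by
        rw [← exp_add, ← exp_add]; ring_nf
      have e6 : exp 2 ≤ exp (g * (1 / 10000)) := exp_le_exp.2 heps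
      have e7 : 5 * exp (g * M) ≤ exp (g * M) * exp (g * (1 / 10000)) := by
        have := mul_le_mul_of_nonneg_left (h2.trans e6) (exp_pos (g * M)).le
        linarith
      have e8 : exp (g * (M - K + 1 / 10000)) * exp (g * K) ≤
          exp (g * (M - K + 1 / 10000)) *
            (exp (g * a) + C * exp (g * b) + D * exp (g * c)) :=
        mul_le_mul_of_nonneg_left hdn (exp_pos _).le
      linarith
    have := exp_le_exp.1 key
    exact le_of_mul_le_mul_left this hg0
  · intro M K hK ha hb hc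
    have num : exp (g * K) ≤
        α + exp (g * a) + γ * exp (g * b) + δ * exp (g * c) := by
      have p1 := exp_pos (g * a)
      have p2 := exp_pos (g * (3 + c))
      rcases hK with hK | hK
      · have := mono hK
        linarith
      · have := mono hK
        linarith
    have hdn : exp (g * a) + C * exp (g * b) + D * exp (g * c) ≤
        5 * exp (g * M) := by
      have h2 := mono ha
      have h3 := hDc.trans (mono hc)
      have h4 := mono hb
      have p0 := exp_pos (g * M)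
      linarith
    have key : exp (g * (K - M - 1 / 10000)) ≤ exp (g * d) := by
      rw [h, le_div_iff₀ hden]
      have e5 : exp (g * (K - M - 1 / 10000)) * (exp (g * M) * exp (g * (1 / 10000))) =
          exp (g * K) := by
        rw [← exp_add, ← exp_add]; ring_nf
      have e6 : exp 2 ≤ exp (g * (1 / 10000)) := exp_le_exp.2 heps
      have e7 : 5 * exp (g * M) ≤ exp (g * M) * exp (g * (1 / 10000)) := by
        have := mul_le_mul_of_nonneg_left (h2.trans e6) (exp_pos (g * M)).le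
        linarith
      have e8 : exp (g * (K - M - 1 / 10000)) *
          (exp (g * a) + C * exp (g * b) + D * exp (g * c)) ≤
          exp (g * (K - M - 1 / 10000)) * (exp (g * M) * exp (g * (1 / 10000))) :=
        mul_le_mul_of_nonneg_left (hdn.trans e7) (exp_pos _).le
      linarith
    have := exp_le_exp.1 key
    exact le_of_mul_le_mul_left this hg0

/-- state condition -/
structure St (y : ℕ → ℝ) (n : ℕ) : Prop where
  t : y n ≤ 3 / 2
  l : -(1 / 10000) ≤ y (n + 2)
  u : y (n + 2) ≤ 1 / 10000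

theorem moveD {y : ℕ → ℝ} (h : ∀ n, Tr (y (n + 2)) (y (n + 1)) (y n) (y (n + 3))) {n : ℕ}
    (hs : St y n) (h1 : 314 / 100 ≤ y (n + 1)) (h2 : y (n + 1) ≤ 386 / 100) :
    St y (n + 10) ∧ 2 * y (n + 1) - 3 - 1 / 100 ≤ y (n + 11) ∧
      y (n + 11) ≤ 2 * y (n + 1) - 3 + 1 / 100 ∧ ∀ i, i ≤ 12 → y (n + i) ≤ 5 := by
  obtain ⟨ht, hl, hu⟩ := hs
  set s := y (n + 1) with hsdef
  have T3 := h n
  have T4 := h (n + 1)
  have T5 := h (n + 2)
  have T6 := h (n + 3)
  have T7 := h (n + 4)
  have T8 := h (n + 5)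
  have T9 := h (n + 6)
  have T10 := h (n + 7)
  have T11 := h (n + 8)
  have T12 := h (n + 9)
  simp only [add_assoc, Nat.reduceAdd] at T3 T4 T5 T6 T7 T8 T9 T10 T11 T12
  rw [← hsdef] at T3 T4
  have u3 : y (n + 3) ≤ 1 / 2 - s + 1 / 10000 := by
    have := T3.up (9 / 2) (4 + s) (by norm_num) (by linarith) (by linarith) (by linarith)
      (Or.inr le_rfl)
    linarith
  have u4 : y (n + 4) ≤ s - 1 + 2 / 10000 := by
    have := T4.up (3 + s) (4 - 1 / 10000) (by linarith) (by linarith) (by linarith) (by linarith)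
      (Or.inr (by linarith))
    linarith
  have l4 : s - 1 - 2 / 10000 ≤ y (n + 4) := by
    have := T4.low (4 + 1 / 10000) (3 + s) (Or.inr le_rfl) (by linarith) (by linarith)
      (by linarith)
    linarith
  have u5 : y (n + 5) ≤ 4 - s + 4 / 10000 := by
    have := T5.up (3 + 1 / 10000) (s - 1 - 2 / 10000) (by linarith) (by linarith) (by linarith)
      (by linarith) (Or.inl (by linarith))
    linarith
  have l5 : 4 - s - 4 / 10000 ≤ y (n + 5) := by
    have := T5.low (s - 1 + 2 / 10000) (3 - 1 / 10000) (Or.inr (by linarith))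
      (by linarith) (by linarith) (by linarith)
    linarith
  have u6 : y (n + 6) ≤ 1 - 2 * s + 7 / 10000 := by
    have := T6.up (4 - s + 4 / 10000) (3 + s - 2 / 10000) (by linarith) (by linarith)
      (by linarith) (by linarith) (Or.inr (by linarith))
    linarith
  have l6 : 1 - 2 * s - 7 / 10000 ≤ y (n + 6) := by
    have := T6.low (3 + s + 2 / 10000) (4 - s - 4 / 10000) (Or.inl (by linarith))
      (by linarith) (by linarith) (by linarith)
    linarith
  have u7 : y (n + 7) ≤ 2 * s - 6 + 7 / 10000 := by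
    have := T7.up (2 + s + 2 / 10000) (8 - s - 4 / 10000) (by linarith) (by linarith)
      (by linarith) (by linarith) (Or.inr (by linarith))
    linarith
  have l7 : 2 * s - 6 - 7 / 10000 ≤ y (n + 7) := by
    have := T7.low (8 - s + 4 / 10000) (2 + s - 2 / 10000) (Or.inr (by linarith))
      (by linarith) (by linarith) (by linarith)
    linarith
  have u8 : y (n + 8) ≤ 13 - 3 * s + 12 / 10000 := by
    have := T8.up (7 - s + 4 / 10000) (2 * s - 6 - 7 / 10000) (by linarith) (by linarith)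
      (by linarith) (by linarith) (Or.inl (by linarith))
    linarith
  have l8 : 13 - 3 * s - 12 / 10000 ≤ y (n + 8) := by
    have := T8.low (2 * s - 6 + 7 / 10000) (7 - s - 4 / 10000) (Or.inr (by linarith))
      (by linarith) (by linarith) (by linarith)
    linarith
  have u9 : y (n + 9) ≤ 15 - 5 * s + 20 / 10000 := by
    have := T9.up (13 - 3 * s + 12 / 10000) (2 * s - 2 - 7 / 10000) (by linarith) (by linarith)
      (by linarith) (by linarith) (Or.inr (by linarith))
    linarith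
  have l9 : 15 - 5 * s - 20 / 10000 ≤ y (n + 9) := by
    have := T9.low (2 * s - 2 + 7 / 10000) (13 - 3 * s - 12 / 10000)
      (Or.inl (by linarith)) (by linarith) (by linarith) (by linarith)
    linarith
  have u10 : y (n + 10) ≤ 5 * s - 20 + 20 / 10000 := by
    have := T10.up (2 * s - 3 + 7 / 10000) (17 - 3 * s - 12 / 10000) (by linarith) (by linarith)
      (by linarith) (by linarith) (Or.inr (by linarith))
    linarith
  have l10 : 5 * s - 20 - 20 / 10000 ≤ y (n + 10) := by
    have := T10.low (17 - 3 * s + 12 / 10000) (2 * s - 3 - 7 / 10000)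
      (Or.inr (by linarith)) (by linarith) (by linarith) (by linarith)
    linarith
  have u11 : y (n + 11) ≤ 2 * s - 3 + 33 / 10000 := by
    have := T11.up (16 - 3 * s + 12 / 10000) (19 - 5 * s - 20 / 10000) (by linarith)
      (by linarith) (by linarith) (by linarith) (Or.inr (by linarith))
    linarith
  have l11 : 2 * s - 3 - 33 / 10000 ≤ y (n + 11) := by
    have := T11.low (19 - 5 * s + 20 / 10000) (16 - 3 * s - 12 / 10000)
      (Or.inr (by linarith)) (by linarith) (by linarith) (by linarith)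
    linarith
  have u12 : y (n + 12) ≤ 1 / 10000 := by
    have := T12.up (y (n + 11)) (y (n + 11)) (by linarith) le_rfl
      (by linarith) (by linarith) (Or.inl le_rfl)
    linarith
  have l12 : -(1 / 10000) ≤ y (n + 12) := by
    have := T12.low (y (n + 11)) (y (n + 11)) (Or.inl le_rfl) le_rfl
      (by linarith) (by linarith)
    linarith
  clear T3 T4 T5 T6 T7 T8 T9 T10 T11 T12
  refine ⟨⟨by linarith, l12, u12⟩, by linarith, by linarith, ?_⟩
  have b0 : y n ≤ 5 := by linarith
  have b1 : y (n + 1) ≤ 5 := by linarith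
  have b2 : y (n + 2) ≤ 5 := by linarith
  have b3 : y (n + 3) ≤ 5 := by linarith
  have b4 : y (n + 4) ≤ 5 := by linarith
  have b5 : y (n + 5) ≤ 5 := by linarith
  have b6 : y (n + 6) ≤ 5 := by linarith
  have b7 : y (n + 7) ≤ 5 := by linarith
  have b8 : y (n + 8) ≤ 5 := by linarith
  have b9 : y (n + 9) ≤ 5 := by linarith
  have b10 : y (n + 10) ≤ 5 := by linarith
  have b11 : y (n + 11) ≤ 5 := by linarith
  have b12 : y (n + 12) ≤ 5 := by linarith
  clear u3 u4 l4 u5 l5 u6 l6 u7 l7 u8 l8 u9 l9 u10 l10 u11 l11 u12 l12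
  intro i hi
  interval_cases i <;> assumption

theorem moveS {y : ℕ → ℝ} (h : ∀ n, Tr (y (n + 2)) (y (n + 1)) (y n) (y (n + 3))) {n : ℕ}
    (hs : St y n) (h1 : 413 / 100 ≤ y (n + 1)) (h2 : y (n + 1) ≤ 471 / 100) :
    St y (n + 3) ∧ y (n + 1) - 1 - 1 / 100 ≤ y (n + 4) ∧
      y (n + 4) ≤ y (n + 1) - 1 + 1 / 100 ∧ ∀ i, i ≤ 5 → y (n + i) ≤ 5 := by
  obtain ⟨ht, hl, hu⟩ := hs
  set s := y (n + 1) with hsdef
  have T3 := h n
  have T4 := h (n + 1)
  have T5 := h (n + 2)
  simp only [add_assoc, Nat.reduceAdd] at T3 T4 T5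
  rw [← hsdef] at T3 T4
  have u3 : y (n + 3) ≤ 1 / 2 - s + 1 / 10000 := by
    have := T3.up (9 / 2) (4 + s) (by norm_num) (by linarith) (by linarith) (by linarith)
      (Or.inr le_rfl)
    linarith
  have u4 : y (n + 4) ≤ s - 1 + 2 / 10000 := by
    have := T4.up (3 + s) (4 - 1 / 10000) (by linarith) (by linarith) (by linarith) (by linarith)
      (Or.inr (by linarith))
    linarith
  have l4 : s - 1 - 2 / 10000 ≤ y (n + 4) := by
    have := T4.low (4 + 1 / 10000) (3 + s) (Or.inr le_rfl) (by linarith) (by linarith)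
      (by linarith)
    linarith
  have u5 : y (n + 5) ≤ 1 / 10000 := by
    have := T5.up (y (n + 4)) (y (n + 4)) (by linarith) le_rfl
      (by linarith) (by linarith) (Or.inl le_rfl)
    linarith
  have l5 : -(1 / 10000) ≤ y (n + 5) := by
    have := T5.low (y (n + 4)) (y (n + 4)) (Or.inl le_rfl) le_rfl
      (by linarith) (by linarith)
    linarith
  clear T3 T4 T5
  refine ⟨⟨by linarith, l5, u5⟩, by linarith, by linarith, ?_⟩
  have b0 : y n ≤ 5 := by linarith
  have b1 : y (n + 1) ≤ 5 := by linarith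
  have b2 : y (n + 2) ≤ 5 := by linarith
  have b3 : y (n + 3) ≤ 5 := by linarith
  have b4 : y (n + 4) ≤ 5 := by linarith
  have b5 : y (n + 5) ≤ 5 := by linarith
  clear u3 u4 l4 u5 l5
  intro i hi
  interval_cases i <;> assumption

/-- the right-hand side of the recurrence -/
noncomputable def F (α γ δ C D u v w : ℝ) : ℝ :=
  (α + u + γ * v + δ * w) / (u + C * v + D * w)

/-- the one-parameter family of solutions -/
noncomputable def X (g α γ δ C D t : ℝ) : ℕ → ℝ
  | 0 => 1
  | 1 => exp (g * t)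
  | 2 => 1
  | (n + 3) => F α γ δ C D (X g α γ δ C D t (n + 2)) (X g α γ δ C D t (n + 1))
      (X g α γ δ C D t n)

section family

variable {g α γ δ C D : ℝ}

theorem X_pos (hP : Par g α γ δ C D) (t : ℝ) : ∀ n, 0 < X g α γ δ C D t n := by
  obtain ⟨hg, hα0, hα1, hγ0, hγ, hδ0, hδ1, hC0, hC1, hD0, hD⟩ := hP
  have hCpos : 0 < C := lt_of_lt_of_le (exp_pos _) hC0
  have hδpos : 0 < δ := lt_of_lt_of_le (exp_pos _) hδ0
  have key : ∀ n, 0 < X g α γ δ C D t n ∧ 0 < X g α γ δ C D t (n + 1) ∧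
      0 < X g α γ δ C D t (n + 2) := by
    intro n
    induction n with
    | zero =>
      refine ⟨?_, ?_, ?_⟩
      · simp [X]
      · simpa [X] using exp_pos (g * t)
      · simp [X]
    | succ n ih =>
      obtain ⟨a, b, c⟩ := ih
      refine ⟨b, c, ?_⟩
      show 0 < F α γ δ C D (X g α γ δ C D t (n + 2)) (X g α γ δ C D t (n + 1))
        (X g α γ δ C D t n)
      unfold F
      positivity
  exact fun n => (key n).1

theorem X_cont (hP : Par g α γ δ C D) : ∀ n, Continuous fun t => X g α γ δ C D t n := by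
  have hpos := X_pos hP
  obtain ⟨hg, hα0, hα1, hγ0, hγ, hδ0, hδ1, hC0, hC1, hD0, hD⟩ := hP
  have hCpos : 0 < C := lt_of_lt_of_le (exp_pos _) hC0
  have hδpos : 0 < δ := lt_of_lt_of_le (exp_pos _) hδ0
  have key : ∀ n, (Continuous fun t => X g α γ δ C D t n) ∧
      (Continuous fun t => X g α γ δ C D t (n + 1)) ∧
      (Continuous fun t => X g α γ δ C D t (n + 2)) := by
    intro n
    induction n with
    | zero =>
      refine ⟨?_, ?_, ?_⟩
      · simp only [X]; exact continuous_const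
      · simp only [X]; fun_prop
      · simp only [X]; exact continuous_const
    | succ n ih =>
      obtain ⟨a, b, c⟩ := ih
      refine ⟨b, c, ?_⟩
      show Continuous fun t => F α γ δ C D (X g α γ δ C D t (n + 2)) (X g α γ δ C D t (n + 1))
        (X g α γ δ C D t n)
      unfold F
      refine Continuous.div (by fun_prop) (by fun_prop) ?_
      intro t
      have h1 := hpos t n
      have h2 := hpos t (n + 1)
      have h3 := hpos t (n + 2)
      positivity
  exact fun n => (key n).1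

/-- logarithmic coordinates -/
noncomputable def Y (g α γ δ C D t : ℝ) (n : ℕ) : ℝ := Real.log (X g α γ δ C D t n) / g

theorem exp_Y (hP : Par g α γ δ C D) (t : ℝ) (n : ℕ) :
    exp (g * Y g α γ δ C D t n) = X g α γ δ C D t n := by
  have hg0 : 0 < g := by linarith [hP.g0]
  unfold Y
  rw [mul_div_cancel₀ _ hg0.ne', Real.exp_log (X_pos hP t n)]

theorem Y_cont (hP : Par g α γ δ C D) (n : ℕ) : Continuous fun t => Y g α γ δ C D t n := by
  unfold Y
  exact ((X_cont hP n).log (fun t => (X_pos hP t n).ne')).div_const g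

theorem Y_tr (hP : Par g α γ δ C D) (t : ℝ) (n : ℕ) :
    Tr (Y g α γ δ C D t (n + 2)) (Y g α γ δ C D t (n + 1)) (Y g α γ δ C D t n)
      (Y g α γ δ C D t (n + 3)) := by
  apply tr_of_step hP
  rw [exp_Y hP, exp_Y hP, exp_Y hP, exp_Y hP]
  rfl

/-- the inductive property -/
def Q (g α γ δ C D : ℝ) (n : ℕ) (p q lo hi : ℝ) : Prop :=
  Crosses (fun t => Y g α γ δ C D t (n + 1)) p q lo hi ∧
    ∀ t, p ≤ t → t ≤ q → St (Y g α γ δ C D t) n ∧ ∀ i, i ≤ n + 2 → Y g α γ δ C D t i ≤ 5

theorem crossD (hP : Par g α γ δ C D) {n : ℕ} {p q lo hi lo' hi' : ℝ} (hpq : p ≤ q)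
    (h : Q g α γ δ C D n p q lo hi) (_hlh : lo ≤ hi) (h1 : 314 / 100 ≤ lo) (h2 : hi ≤ 386 / 100)
    (h3 : 2 * lo - 3 + 1 / 100 ≤ lo') (h4 : lo' ≤ hi') (h5 : hi' ≤ 2 * hi - 3 - 1 / 100) :
    ∃ p' q', p ≤ p' ∧ p' ≤ q' ∧ q' ≤ q ∧ Q g α γ δ C D (n + 10) p' q' lo' hi' := by
  obtain ⟨⟨hends, hin⟩, hst⟩ := h
  simp only at hends hin
  have hm : ∀ t, p ≤ t → t ≤ q → _ := fun t a b =>
    moveD (Y_tr hP t) (hst t a b).1 (h1.trans (hin t a b).1) ((hin t a b).2.trans h2)
  have mp := hm p le_rfl hpq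
  have mq := hm q hpq le_rfl
  have hends' : (Y g α γ δ C D p (n + 11) ≤ lo' ∧ hi' ≤ Y g α γ δ C D q (n + 11)) ∨
      (hi' ≤ Y g α γ δ C D p (n + 11) ∧ Y g α γ δ C D q (n + 11) ≤ lo') := by
    rcases hends with ⟨e1, e2⟩ | ⟨e1, e2⟩
    · left
      rw [e1] at mp
      rw [e2] at mq
      exact ⟨mp.2.2.1.trans h3, h5.trans mq.2.1⟩
    · right
      rw [e1] at mp
      rw [e2] at mq
      exact ⟨h5.trans mp.2.1, mq.2.2.1.trans h3⟩
  obtain ⟨p', q', a, b, c, d⟩ := sub_cross' hpq (Y_cont hP (n + 11)).continuousOn hends' h4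
  refine ⟨p', q', a, b, c, d, ?_⟩
  intro t t1 t2
  have t1' := a.trans t1
  have t2' := t2.trans c
  refine ⟨(hm t t1' t2').1, ?_⟩
  intro i hi
  by_cases hin2 : i ≤ n + 2
  · exact (hst t t1' t2').2 i hin2
  · push Not at hin2
    obtain ⟨k, rfl⟩ := Nat.exists_eq_add_of_le (show n ≤ i by omega)
    exact (hm t t1' t2').2.2.2 k (by omega)

theorem crossS (hP : Par g α γ δ C D) {n : ℕ} {p q lo hi lo' hi' : ℝ} (hpq : p ≤ q)
    (h : Q g α γ δ C D n p q lo hi) (_hlh : lo ≤ hi) (h1 : 413 / 100 ≤ lo) (h2 : hi ≤ 471 / 100)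
    (h3 : lo - 1 + 1 / 100 ≤ lo') (h4 : lo' ≤ hi') (h5 : hi' ≤ hi - 1 - 1 / 100) :
    ∃ p' q', p ≤ p' ∧ p' ≤ q' ∧ q' ≤ q ∧ Q g α γ δ C D (n + 3) p' q' lo' hi' := by
  obtain ⟨⟨hends, hin⟩, hst⟩ := h
  simp only at hends hin
  have hm : ∀ t, p ≤ t → t ≤ q → _ := fun t a b =>
    moveS (Y_tr hP t) (hst t a b).1 (h1.trans (hin t a b).1) ((hin t a b).2.trans h2)
  have mp := hm p le_rfl hpq
  have mq := hm q hpq le_rfl
  have hends' : (Y g α γ δ C D p (n + 4) ≤ lo' ∧ hi' ≤ Y g α γ δ C D q (n + 4)) ∨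
      (hi' ≤ Y g α γ δ C D p (n + 4) ∧ Y g α γ δ C D q (n + 4) ≤ lo') := by
    rcases hends with ⟨e1, e2⟩ | ⟨e1, e2⟩
    · left
      rw [e1] at mp
      rw [e2] at mq
      exact ⟨mp.2.2.1.trans h3, h5.trans mq.2.1⟩
    · right
      rw [e1] at mp
      rw [e2] at mq
      exact ⟨h5.trans mp.2.1, mq.2.2.1.trans h3⟩
  obtain ⟨p', q', a, b, c, d⟩ := sub_cross' hpq (Y_cont hP (n + 4)).continuousOn hends' h4
  refine ⟨p', q', a, b, c, d, ?_⟩
  intro t t1 t2
  have t1' := a.trans t1
  have t2' := t2.trans c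
  refine ⟨(hm t t1' t2').1, ?_⟩
  intro i hi
  by_cases hin2 : i ≤ n + 2
  · exact (hst t t1' t2').2 i hin2
  · push Not at hin2
    obtain ⟨k, rfl⟩ := Nat.exists_eq_add_of_le (show n ≤ i by omega)
    exact (hm t t1' t2').2.2.2 k (by omega)

/-- lower ends of the two symbol intervals -/
noncomputable def lo : Bool → ℝ
  | true => 356 / 100
  | false => 332 / 100

/-- upper ends of the two symbol intervals -/
noncomputable def hi : Bool → ℝ
  | true => 369 / 100
  | false => 3435 / 1000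

theorem block (hP : Par g α γ δ C D) {n : ℕ} {p q : ℝ} (b b' : Bool) (hpq : p ≤ q)
    (h : Q g α γ δ C D n p q (lo b) (hi b)) :
    ∃ p' q', p ≤ p' ∧ p' ≤ q' ∧ q' ≤ q ∧ Q g α γ δ C D (n + 23) p' q' (lo b') (hi b') := by
  have hl' : 332 / 100 ≤ lo b' := by cases b' <;> norm_num [lo]
  have hlh' : lo b' ≤ hi b' := by cases b' <;> norm_num [lo, hi]
  have hh' : hi b' ≤ 369 / 100 := by cases b' <;> norm_num [hi]
  cases b with
  | false =>
    obtain ⟨p1, q1, a1, b1, c1, d1⟩ := crossD hP hpq h (lo' := 365 / 100) (hi' := 386 / 100)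
      (by norm_num [lo, hi]) (by norm_num [lo]) (by norm_num [hi]) (by norm_num [lo])
      (by norm_num) (by norm_num [hi])
    obtain ⟨p2, q2, a2, b2, c2, d2⟩ := crossD hP b1 d1 (lo' := 431 / 100) (hi' := 471 / 100)
      (by norm_num) (by norm_num) (by norm_num) (by norm_num)
      (by norm_num) (by norm_num)
    obtain ⟨p3, q3, a3, b3, c3, d3⟩ := crossS hP b2 d2 (lo' := lo b') (hi' := hi b')
      (by norm_num) (by norm_num) (by norm_num) (by linarith) hlh' (by linarith)
    exact ⟨p3, q3, by linarith, b3, by linarith, d3⟩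
  | true =>
    obtain ⟨p1, q1, a1, b1, c1, d1⟩ := crossD hP hpq h (lo' := 413 / 100) (hi' := 437 / 100)
      (by norm_num [lo, hi]) (by norm_num [lo]) (by norm_num [hi]) (by norm_num [lo])
      (by norm_num) (by norm_num [hi])
    obtain ⟨p2, q2, a2, b2, c2, d2⟩ := crossS hP b1 d1 (lo' := 314 / 100) (hi' := 336 / 100)
      (by norm_num) (by norm_num) (by norm_num) (by norm_num)
      (by norm_num) (by norm_num)
    obtain ⟨p3, q3, a3, b3, c3, d3⟩ := crossD hP b2 d2 (lo' := lo b') (hi' := hi b')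
      (by norm_num) (by norm_num) (by norm_num) (by linarith) hlh' (by linarith)
    exact ⟨p3, q3, by linarith, b3, by linarith, d3⟩

/-- Every symbol sequence is realised by a solution. -/
theorem itinerary (hP : Par g α γ δ C D) (ω : ℕ → Bool) : ∃ t : ℝ,
    (∀ j, lo (ω j) ≤ Y g α γ δ C D t (23 * j + 1) ∧ Y g α γ δ C D t (23 * j + 1) ≤ hi (ω j)) ∧
    ∀ n, Y g α γ δ C D t n ≤ 5 := by
  have hg0 : 0 < g := by linarith [hP.g0]
  have h0 : ∃ p q, p ≤ q ∧ Q g α γ δ C D (23 * 0) p q (lo (ω 0)) (hi (ω 0)) := by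
    have y0 : ∀ t, Y g α γ δ C D t 0 = 0 := by intro t; simp [Y, X]
    have y2 : ∀ t, Y g α γ δ C D t 2 = 0 := by intro t; simp [Y, X]
    have y1 : ∀ t, Y g α γ δ C D t 1 = t := by
      intro t
      simp only [Y, X, Real.log_exp]
      field_simp
    have hlh : lo (ω 0) ≤ hi (ω 0) := by cases ω 0 <;> norm_num [lo, hi]
    have hh : hi (ω 0) ≤ 5 := by cases ω 0 <;> norm_num [hi]
    refine ⟨lo (ω 0), hi (ω 0), hlh, ⟨Or.inl ⟨y1 _, y1 _⟩, ?_⟩, ?_⟩
    · intro t a b
      simp only [mul_zero, zero_add, y1]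
      exact ⟨a, b⟩
    · intro t a b
      refine ⟨⟨?_, ?_, ?_⟩, ?_⟩
      · rw [mul_zero, y0]; norm_num
      · rw [mul_zero, zero_add, y2]; norm_num
      · rw [mul_zero, zero_add, y2]; norm_num
      · intro i hi2
        have : i = 0 ∨ i = 1 ∨ i = 2 := by omega
        rcases this with rfl | rfl | rfl
        · rw [y0]; norm_num
        · rw [y1]; linarith
        · rw [y2]; norm_num
  obtain ⟨t, ht⟩ := nested (fun j p q => Q g α γ δ C D (23 * j) p q (lo (ω j)) (hi (ω j))) h0
    (by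
      intro j p q hpq h
      have := block hP (ω j) (ω (j + 1)) hpq h
      rw [show 23 * (j + 1) = 23 * j + 23 by ring]
      exact this)
  refine ⟨t, ?_, ?_⟩
  · intro j
    obtain ⟨p, q, h1, h2, h3⟩ := ht j
    exact h3.1.2 t h1 h2
  · intro n
    obtain ⟨p, q, h1, h2, h3⟩ := ht n
    exact (h3.2 t h1 h2).2 n (by omega)

/-- Existence of bounded solutions which are not asymptotically periodic. -/
theorem exists_nonperiodic (hP : Par g α γ δ C D) : ∃ x : ℕ → ℝ, (∀ n, 0 < x n) ∧
    (∀ n, x (n + 3) = (α + x (n + 2) + γ * x (n + 1) + δ * x n) /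
      (x (n + 2) + C * x (n + 1) + D * x n)) ∧ (∀ n, x n ≤ exp (5 * g)) ∧
    ∀ p : ℕ → ℝ, ∀ k : ℕ, 0 < k → (∀ n, p (n + k) = p n) →
      ¬ Filter.Tendsto (fun n => x n - p n) Filter.atTop (nhds 0) := by
  have hg0 : 0 < g := by linarith [hP.g0]
  obtain ⟨t, h1, h2⟩ := itinerary hP pw
  refine ⟨X g α γ δ C D t, X_pos hP t, fun n => rfl, ?_, ?_⟩
  · intro n
    rw [← exp_Y hP t n]
    apply exp_le_exp.2
    have := mul_le_mul_of_nonneg_left (h2 n) hg0.le
    linarith
  · intro p k hk hp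
    have hab : exp (g * (3435 / 1000)) < exp (g * (356 / 100)) := by
      apply exp_lt_exp.2
      exact mul_lt_mul_of_pos_left (by norm_num) hg0
    refine not_asymp_periodic (m := 23) (r := 1) hab hk (by norm_num) ?_ ?_ hp
    · intro j hj
      rw [mul_comm j 23, ← exp_Y hP t]
      apply exp_le_exp.2
      have := (h1 j).1
      rw [hj] at this
      exact mul_le_mul_of_nonneg_left this hg0.le
    · intro j hj
      rw [mul_comm j 23, ← exp_Y hP t]
      apply exp_le_exp.2
      have := (h1 j).2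
      rw [hj] at this
      exact mul_le_mul_of_nonneg_left this hg0.le

end family

end Pool.Agent.R206.Horse
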