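import Mathlib
import Pool.Agent.R206.Horse.Basic

/-! The recurrence `x' = (α + w) / (A + B u + v)`, `α ~ e^{5g}`, `B ~ e^{-20g}`, `A ≤ e^{-13g}`. -/

namespace Pool.Agent.R206.Horse.B

open Real Pool.Agent.R206.Horse

/-- two sided estimate for one step, in logarithmic coordinates -/
structure Tr (a b c d : ℝ) : Prop where
  up : ∀ M K : ℝ, 5 ≤ M → c ≤ M → (K ≤ a - 20 ∨ K ≤ b) → d ≤ M - K + 1 / 10000
  low : ∀ M K : ℝ, (K ≤ 5 ∨ K ≤ c) → -13 ≤ M → a - 20 ≤ M → b ≤ M → K - M - 1 / 10000 ≤ d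

/-- the parameter region -/
structure Par (g α A B : ℝ) : Prop where
  g0 : 20000 ≤ g
  α0 : exp (5 * g) ≤ α
  α1 : α ≤ 2 * exp (5 * g)
  A0 : 0 ≤ A
  A1 : A ≤ exp (-13 * g)
  B0 : exp (-20 * g) ≤ B
  B1 : B ≤ 2 * exp (-20 * g)

theorem tr_of_step {g α A B a b c d : ℝ} (hP : Par g α A B)
    (h : exp (g * d) = (α + exp (g * c)) / (A + B * exp (g * a) + exp (g * b))) :
    Tr a b c d := by
  obtain ⟨hg, hα0, hα1, hA0, hA1, hB0, hB1⟩ := hP
  have hg0 : 0 < g := by linarith
  have hαpos : 0 < α := lt_of_lt_of_le (exp_pos _) hα0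
  have hBpos : 0 < B := lt_of_lt_of_le (exp_pos _) hB0
  have hden : 0 < A + B * exp (g * a) + exp (g * b) := by positivity
  have e5 : exp (5 * g) = exp (g * 5) := by ring_nf
  have e13 : exp (-13 * g) = exp (g * (-13)) := by ring_nf
  have e20 : exp (-20 * g) * exp (g * a) = exp (g * (a - 20)) := by
    rw [← exp_add]; ring_nf
  rw [e5] at hα0 hα1
  rw [e13] at hA1
  have B0' : exp (g * (a - 20)) ≤ B * exp (g * a) := by
    rw [← e20]
    exact mul_le_mul_of_nonneg_right hB0 (exp_pos _).le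
  have B1' : B * exp (g * a) ≤ 2 * exp (g * (a - 20)) := by
    rw [← e20, ← mul_assoc]
    exact mul_le_mul_of_nonneg_right hB1 (exp_pos _).le
  have mono : ∀ {p q : ℝ}, p ≤ q → exp (g * p) ≤ exp (g * q) := by
    intro p q hpq
    exact exp_le_exp.2 (mul_le_mul_of_nonneg_left hpq hg0.le)
  have h2 : (5 : ℝ) ≤ exp 2 := by
    have h1 := Real.exp_one_gt_d9
    have e : exp 2 = exp 1 * exp 1 := by rw [← exp_add]; norm_num
    rw [e]
    nlinarith
  have heps : (2 : ℝ) ≤ g * (1 / 10000) := by linarith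
  have e6 : exp 2 ≤ exp (g * (1 / 10000)) := exp_le_exp.2 heps
  refine ⟨?_, ?_⟩
  · intro M K hM hc hK
    have num : α + exp (g * c) ≤ 5 * exp (g * M) := by
      have h1 := mono hM
      have h2 := mono hc
      have := exp_pos (g * M)
      linarith
    have hdn : exp (g * K) ≤ A + B * exp (g * a) + exp (g * b) := by
      have p1 := exp_pos (g * (a - 20))
      have p2 := exp_pos (g * b)
      rcases hK with hK | hK
      · have := mono hK
        linarith
      · have := mono hK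
        linarith
    have key : exp (g * d) ≤ exp (g * (M - K + 1 / 10000)) := by
      rw [h, div_le_iff₀ hden]
      have e5 : exp (g * (M - K + 1 / 10000)) * exp (g * K) =
          exp (g * M) * exp (g * (1 / 10000)) := by
        rw [← exp_add, ← exp_add]; ring_nf
      have e7 : 5 * exp (g * M) ≤ exp (g * M) * exp (g * (1 / 10000)) := by
        have := mul_le_mul_of_nonneg_left (h2.trans e6) (exp_pos (g * M)).le
        linarith
      have e8 : exp (g * (M - K + 1 / 10000)) * exp (g * K) ≤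
          exp (g * (M - K + 1 / 10000)) * (A + B * exp (g * a) + exp (g * b)) :=
        mul_le_mul_of_nonneg_left hdn (exp_pos _).le
      linarith
    have := exp_le_exp.1 key
    exact le_of_mul_le_mul_left this hg0
  · intro M K hK h13 ha hb
    have num : exp (g * K) ≤ α + exp (g * c) := by
      have p2 := exp_pos (g * c)
      rcases hK with hK | hK
      · have := mono hK
        linarith
      · have := mono hK
        linarith
    have hdn : A + B * exp (g * a) + exp (g * b) ≤ 5 * exp (g * M) := by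
      have h2 := mono h13
      have h3 := mono ha
      have h4 := mono hb
      have p0 := exp_pos (g * M)
      linarith
    have key : exp (g * (K - M - 1 / 10000)) ≤ exp (g * d) := by
      rw [h, le_div_iff₀ hden]
      have e5 : exp (g * (K - M - 1 / 10000)) * (exp (g * M) * exp (g * (1 / 10000))) =
          exp (g * K) := by
        rw [← exp_add, ← exp_add]; ring_nf
      have e7 : 5 * exp (g * M) ≤ exp (g * M) * exp (g * (1 / 10000)) := by
        have := mul_le_mul_of_nonneg_left (h2.trans e6) (exp_pos (g * M)).le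
        linarith
      have e8 : exp (g * (K - M - 1 / 10000)) * (A + B * exp (g * a) + exp (g * b)) ≤
          exp (g * (K - M - 1 / 10000)) * (exp (g * M) * exp (g * (1 / 10000))) :=
        mul_le_mul_of_nonneg_left (hdn.trans e7) (exp_pos _).le
      linarith
    have := exp_le_exp.1 key
    exact le_of_mul_le_mul_left this hg0

/-- state condition -/
structure St (y : ℕ → ℝ) (n : ℕ) : Prop where
  w0 : 25 - y (n + 1) - 1 / 10000 ≤ y n
  w1 : y n ≤ 25 - y (n + 1) + 1 / 10000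
  u0 : y (n + 1) - 20 - 2 / 10000 ≤ y (n + 2)
  u1 : y (n + 2) ≤ y (n + 1) - 20 + 2 / 10000

theorem moveA {y : ℕ → ℝ} (h : ∀ n, Tr (y (n + 2)) (y (n + 1)) (y n) (y (n + 3))) {n : ℕ}
    (hs : St y n) (h1 : 2 ≤ y (n + 1)) (h2 : y (n + 1) ≤ 499 / 100) :
    St y (n + 3) ∧ 2 * y (n + 1) - 1 / 100 ≤ y (n + 4) ∧
      y (n + 4) ≤ 2 * y (n + 1) + 1 / 100 ∧ ∀ i, i ≤ 5 → y (n + i) ≤ 25 := by
  obtain ⟨w0, w1, u0, u1⟩ := hs
  set s := y (n + 1) with hsdef
  have T3 := h n
  have T4 := h (n + 1)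
  have T5 := h (n + 2)
  simp only [add_assoc, Nat.reduceAdd] at T3 T4 T5
  rw [← hsdef] at T3 T4
  have u3 : y (n + 3) ≤ 25 - 2 * s + 2 / 10000 := by
    have := T3.up (25 - s + 1 / 10000) s (by linarith) (by linarith) (Or.inr le_rfl)
    linarith
  have l3 : 25 - 2 * s - 2 / 10000 ≤ y (n + 3) := by
    have := T3.low s (25 - s - 1 / 10000) (Or.inr (by linarith)) (by linarith) (by linarith)
      le_rfl
    linarith
  have u4 : y (n + 4) ≤ 25 - y (n + 3) + 1 / 10000 := by
    have := T4.up 5 (y (n + 3) - 20) le_rfl (by linarith) (Or.inl le_rfl)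
    linarith
  have l4 : 25 - y (n + 3) - 1 / 10000 ≤ y (n + 4) := by
    have := T4.low (y (n + 3) - 20) 5 (Or.inl le_rfl) (by linarith) le_rfl (by linarith)
    linarith
  have u5 : y (n + 5) ≤ 5 - y (n + 3) + 1 / 10000 := by
    have := T5.up 5 (y (n + 3)) le_rfl (by linarith) (Or.inr le_rfl)
    linarith
  have l5 : 5 - y (n + 3) - 1 / 10000 ≤ y (n + 5) := by
    have := T5.low (y (n + 3)) 5 (Or.inl le_rfl) (by linarith) (by linarith) le_rfl
    linarith
  clear T3 T4 T5
  have hst : St y (n + 3) :=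
    ⟨by show 25 - y (n + 4) - 1 / 10000 ≤ y (n + 3); linarith,
      by show y (n + 3) ≤ 25 - y (n + 4) + 1 / 10000; linarith,
      by show y (n + 4) - 20 - 2 / 10000 ≤ y (n + 5); linarith,
      by show y (n + 5) ≤ y (n + 4) - 20 + 2 / 10000; linarith⟩
  refine ⟨hst, by linarith, by linarith, ?_⟩
  have b0 : y n ≤ 25 := by linarith
  have b1 : y (n + 1) ≤ 25 := by linarith
  have b2 : y (n + 2) ≤ 25 := by linarith
  have b3 : y (n + 3) ≤ 25 := by linarith
  have b4 : y (n + 4) ≤ 25 := by linarith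
  have b5 : y (n + 5) ≤ 25 := by linarith
  intro i hi
  interval_cases i <;> assumption

theorem moveB {y : ℕ → ℝ} (h : ∀ n, Tr (y (n + 2)) (y (n + 1)) (y n) (y (n + 3))) {n : ℕ}
    (hs : St y n) (h1 : 835 / 100 ≤ y (n + 1)) (h2 : y (n + 1) ≤ 999 / 100) :
    St y (n + 7) ∧ 2 * y (n + 1) - 15 - 1 / 100 ≤ y (n + 8) ∧
      y (n + 8) ≤ 2 * y (n + 1) - 15 + 1 / 100 ∧ ∀ i, i ≤ 9 → y (n + i) ≤ 25 := by
  obtain ⟨w0, w1, u0, u1⟩ := hs
  set s := y (n + 1) with hsdef
  have T3 := h n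
  have T4 := h (n + 1)
  have T5 := h (n + 2)
  have T6 := h (n + 3)
  have T7 := h (n + 4)
  have T8 := h (n + 5)
  have T9 := h (n + 6)
  simp only [add_assoc, Nat.reduceAdd] at T3 T4 T5 T6 T7 T8 T9
  rw [← hsdef] at T3 T4
  have u3 : y (n + 3) ≤ 25 - 2 * s + 2 / 10000 := by
    have := T3.up (25 - s + 1 / 10000) s (by linarith) (by linarith) (Or.inr le_rfl)
    linarith
  have l3 : 25 - 2 * s - 2 / 10000 ≤ y (n + 3) := by
    have := T3.low s (25 - s - 1 / 10000) (Or.inr (by linarith)) (by linarith) (by linarith)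
      le_rfl
    linarith
  have u4 : y (n + 4) ≤ 20 + 3 / 10000 := by
    have := T4.up s (y (n + 2)) (by linarith) le_rfl (Or.inr le_rfl)
    linarith
  have l4 : 20 - 3 / 10000 ≤ y (n + 4) := by
    have := T4.low (y (n + 2)) s (Or.inr le_rfl) (by linarith) (by linarith) le_rfl
    linarith
  have u5 : y (n + 5) ≤ 5 - y (n + 3) + 1 / 10000 := by
    have := T5.up 5 (y (n + 3)) le_rfl (by linarith) (Or.inr le_rfl)
    linarith
  have l5 : 5 - y (n + 3) - 1 / 10000 ≤ y (n + 5) := by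
    have := T5.low (y (n + 3)) 5 (Or.inl le_rfl) (by linarith) (by linarith) le_rfl
    linarith
  have u6 : y (n + 6) ≤ y (n + 3) - y (n + 4) + 1 / 10000 := by
    have := T6.up (y (n + 3)) (y (n + 4)) (by linarith) le_rfl (Or.inr le_rfl)
    linarith
  have l6 : y (n + 3) - y (n + 4) - 1 / 10000 ≤ y (n + 6) := by
    have := T6.low (y (n + 4)) (y (n + 3)) (Or.inr le_rfl) (by linarith) (by linarith) le_rfl
    linarith
  have u7 : y (n + 7) ≤ y (n + 4) - y (n + 5) + 1 / 10000 := by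
    have := T7.up (y (n + 4)) (y (n + 5)) (by linarith) le_rfl (Or.inr le_rfl)
    linarith
  have l7 : y (n + 4) - y (n + 5) - 1 / 10000 ≤ y (n + 7) := by
    have := T7.low (y (n + 5)) (y (n + 4)) (Or.inr le_rfl) (by linarith) (by linarith) le_rfl
    linarith
  have u8 : y (n + 8) ≤ 25 - y (n + 7) + 1 / 10000 := by
    have := T8.up 5 (y (n + 7) - 20) le_rfl (by linarith) (Or.inl le_rfl)
    linarith
  have l8 : 25 - y (n + 7) - 1 / 10000 ≤ y (n + 8) := by
    have := T8.low (y (n + 7) - 20) 5 (Or.inl le_rfl) (by linarith) le_rfl (by linarith)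
    linarith
  have u9 : y (n + 9) ≤ 5 - y (n + 7) + 1 / 10000 := by
    have := T9.up 5 (y (n + 7)) le_rfl (by linarith) (Or.inr le_rfl)
    linarith
  have l9 : 5 - y (n + 7) - 1 / 10000 ≤ y (n + 9) := by
    have := T9.low (y (n + 7)) 5 (Or.inl le_rfl) (by linarith) (by linarith) le_rfl
    linarith
  clear T3 T4 T5 T6 T7 T8 T9
  have hst : St y (n + 7) :=
    ⟨by show 25 - y (n + 8) - 1 / 10000 ≤ y (n + 7); linarith,
      by show y (n + 7) ≤ 25 - y (n + 8) + 1 / 10000; linarith,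
      by show y (n + 8) - 20 - 2 / 10000 ≤ y (n + 9); linarith,
      by show y (n + 9) ≤ y (n + 8) - 20 + 2 / 10000; linarith⟩
  refine ⟨hst, by linarith, by linarith, ?_⟩
  have b0 : y n ≤ 25 := by linarith
  have b1 : y (n + 1) ≤ 25 := by linarith
  have b2 : y (n + 2) ≤ 25 := by linarith
  have b3 : y (n + 3) ≤ 25 := by linarith
  have b4 : y (n + 4) ≤ 25 := by linarith
  have b5 : y (n + 5) ≤ 25 := by linarith
  have b6 : y (n + 6) ≤ 25 := by linarith
  have b7 : y (n + 7) ≤ 25 := by linarith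
  have b8 : y (n + 8) ≤ 25 := by linarith
  have b9 : y (n + 9) ≤ 25 := by linarith
  intro i hi
  interval_cases i <;> assumption

/-- the right-hand side of the recurrence -/
noncomputable def F (α A B u v w : ℝ) : ℝ := (α + w) / (A + B * u + v)

/-- the one-parameter family of solutions -/
noncomputable def X (g α A B t : ℝ) : ℕ → ℝ
  | 0 => exp (g * (25 - t))
  | 1 => exp (g * t)
  | 2 => exp (g * (t - 20))
  | (n + 3) => F α A B (X g α A B t (n + 2)) (X g α A B t (n + 1)) (X g α A B t n)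

section family

variable {g α A B : ℝ}

theorem X_pos (hP : Par g α A B) (t : ℝ) : ∀ n, 0 < X g α A B t n := by
  obtain ⟨hg, hα0, hα1, hA0, hA1, hB0, hB1⟩ := hP
  have hαpos : 0 < α := lt_of_lt_of_le (exp_pos _) hα0
  have hBpos : 0 < B := lt_of_lt_of_le (exp_pos _) hB0
  have key : ∀ n, 0 < X g α A B t n ∧ 0 < X g α A B t (n + 1) ∧ 0 < X g α A B t (n + 2) := by
    intro n
    induction n with
    | zero =>
      refine ⟨?_, ?_, ?_⟩
      · simpa [X] using exp_pos (g * (25 - t))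
      · simpa [X] using exp_pos (g * t)
      · simpa [X] using exp_pos (g * (t - 20))
    | succ n ih =>
      obtain ⟨a, b, c⟩ := ih
      refine ⟨b, c, ?_⟩
      show 0 < F α A B (X g α A B t (n + 2)) (X g α A B t (n + 1)) (X g α A B t n)
      unfold F
      positivity
  exact fun n => (key n).1

theorem X_cont (hP : Par g α A B) : ∀ n, Continuous fun t => X g α A B t n := by
  have hpos := X_pos hP
  obtain ⟨hg, hα0, hα1, hA0, hA1, hB0, hB1⟩ := hP
  have hαpos : 0 < α := lt_of_lt_of_le (exp_pos _) hα0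
  have hBpos : 0 < B := lt_of_lt_of_le (exp_pos _) hB0
  have key : ∀ n, (Continuous fun t => X g α A B t n) ∧
      (Continuous fun t => X g α A B t (n + 1)) ∧ (Continuous fun t => X g α A B t (n + 2)) := by
    intro n
    induction n with
    | zero =>
      refine ⟨?_, ?_, ?_⟩
      · simp only [X]; fun_prop
      · simp only [X]; fun_prop
      · simp only [X]; fun_prop
    | succ n ih =>
      obtain ⟨a, b, c⟩ := ih
      refine ⟨b, c, ?_⟩
      show Continuous fun t =>
        F α A B (X g α A B t (n + 2)) (X g α A B t (n + 1)) (X g α A B t n)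
      unfold F
      refine Continuous.div (by fun_prop) (by fun_prop) ?_
      intro t
      have h1 := hpos t n
      have h2 := hpos t (n + 1)
      have h3 := hpos t (n + 2)
      positivity
  exact fun n => (key n).1

/-- logarithmic coordinates -/
noncomputable def Y (g α A B t : ℝ) (n : ℕ) : ℝ := Real.log (X g α A B t n) / g

theorem exp_Y (hP : Par g α A B) (t : ℝ) (n : ℕ) :
    exp (g * Y g α A B t n) = X g α A B t n := by
  have hg0 : 0 < g := by linarith [hP.g0]
  unfold Y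
  rw [mul_div_cancel₀ _ hg0.ne', Real.exp_log (X_pos hP t n)]

theorem Y_cont (hP : Par g α A B) (n : ℕ) : Continuous fun t => Y g α A B t n := by
  unfold Y
  exact ((X_cont hP n).log (fun t => (X_pos hP t n).ne')).div_const g

theorem Y_tr (hP : Par g α A B) (t : ℝ) (n : ℕ) :
    Tr (Y g α A B t (n + 2)) (Y g α A B t (n + 1)) (Y g α A B t n) (Y g α A B t (n + 3)) := by
  apply tr_of_step hP
  rw [exp_Y hP, exp_Y hP, exp_Y hP, exp_Y hP]
  rfl

/-- the inductive property -/
def Q (g α A B : ℝ) (n : ℕ) (p q lo hi : ℝ) : Prop :=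
  Crosses (fun t => Y g α A B t (n + 1)) p q lo hi ∧
    ∀ t, p ≤ t → t ≤ q → St (Y g α A B t) n ∧ ∀ i, i ≤ n + 2 → Y g α A B t i ≤ 25

theorem crossA (hP : Par g α A B) {n : ℕ} {p q lo hi lo' hi' : ℝ} (hpq : p ≤ q)
    (h : Q g α A B n p q lo hi) (h1 : 2 ≤ lo) (h2 : hi ≤ 499 / 100)
    (h3 : 2 * lo + 1 / 100 ≤ lo') (h4 : lo' ≤ hi') (h5 : hi' ≤ 2 * hi - 1 / 100) :
    ∃ p' q', p ≤ p' ∧ p' ≤ q' ∧ q' ≤ q ∧ Q g α A B (n + 3) p' q' lo' hi' := by
  obtain ⟨⟨hends, hin⟩, hst⟩ := h
  simp only at hends hin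
  have hm : ∀ t, p ≤ t → t ≤ q → _ := fun t a b =>
    moveA (Y_tr hP t) (hst t a b).1 (h1.trans (hin t a b).1) ((hin t a b).2.trans h2)
  have mp := hm p le_rfl hpq
  have mq := hm q hpq le_rfl
  have hends' : (Y g α A B p (n + 4) ≤ lo' ∧ hi' ≤ Y g α A B q (n + 4)) ∨
      (hi' ≤ Y g α A B p (n + 4) ∧ Y g α A B q (n + 4) ≤ lo') := by
    rcases hends with ⟨e1, e2⟩ | ⟨e1, e2⟩
    · left
      rw [e1] at mp
      rw [e2] at mq
      exact ⟨mp.2.2.1.trans h3, h5.trans mq.2.1⟩
    · right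
      rw [e1] at mp
      rw [e2] at mq
      exact ⟨h5.trans mp.2.1, mq.2.2.1.trans h3⟩
  obtain ⟨p', q', a, b, c, d⟩ := sub_cross' hpq (Y_cont hP (n + 4)).continuousOn hends' h4
  refine ⟨p', q', a, b, c, d, ?_⟩
  intro t t1 t2
  have t1' := a.trans t1
  have t2' := t2.trans c
  refine ⟨(hm t t1' t2').1, ?_⟩
  intro i hi
  by_cases hin2 : i ≤ n + 2
  · exact (hst t t1' t2').2 i hin2
  · push Not at hin2
    obtain ⟨k, rfl⟩ := Nat.exists_eq_add_of_le (show n ≤ i by omega)
    exact (hm t t1' t2').2.2.2 k (by omega)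

theorem crossB (hP : Par g α A B) {n : ℕ} {p q lo hi lo' hi' : ℝ} (hpq : p ≤ q)
    (h : Q g α A B n p q lo hi) (h1 : 835 / 100 ≤ lo) (h2 : hi ≤ 999 / 100)
    (h3 : 2 * lo - 15 + 1 / 100 ≤ lo') (h4 : lo' ≤ hi') (h5 : hi' ≤ 2 * hi - 15 - 1 / 100) :
    ∃ p' q', p ≤ p' ∧ p' ≤ q' ∧ q' ≤ q ∧ Q g α A B (n + 7) p' q' lo' hi' := by
  obtain ⟨⟨hends, hin⟩, hst⟩ := h
  simp only at hends hin
  have hm : ∀ t, p ≤ t → t ≤ q → _ := fun t a b =>
    moveB (Y_tr hP t) (hst t a b).1 (h1.trans (hin t a b).1) ((hin t a b).2.trans h2)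
  have mp := hm p le_rfl hpq
  have mq := hm q hpq le_rfl
  have hends' : (Y g α A B p (n + 8) ≤ lo' ∧ hi' ≤ Y g α A B q (n + 8)) ∨
      (hi' ≤ Y g α A B p (n + 8) ∧ Y g α A B q (n + 8) ≤ lo') := by
    rcases hends with ⟨e1, e2⟩ | ⟨e1, e2⟩
    · left
      rw [e1] at mp
      rw [e2] at mq
      exact ⟨mp.2.2.1.trans h3, h5.trans mq.2.1⟩
    · right
      rw [e1] at mp
      rw [e2] at mq
      exact ⟨h5.trans mp.2.1, mq.2.2.1.trans h3⟩
  obtain ⟨p', q', a, b, c, d⟩ := sub_cross' hpq (Y_cont hP (n + 8)).continuousOn hends' h4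
  refine ⟨p', q', a, b, c, d, ?_⟩
  intro t t1 t2
  have t1' := a.trans t1
  have t2' := t2.trans c
  refine ⟨(hm t t1' t2').1, ?_⟩
  intro i hi
  by_cases hin2 : i ≤ n + 2
  · exact (hst t t1' t2').2 i hin2
  · push Not at hin2
    obtain ⟨k, rfl⟩ := Nat.exists_eq_add_of_le (show n ≤ i by omega)
    exact (hm t t1' t2').2.2.2 k (by omega)

/-- from `[210/100, 249/100]`, `13` steps -/
theorem crossAAB (hP : Par g α A B) {n : ℕ} {p q lo' hi' : ℝ} (hpq : p ≤ q)
    (h : Q g α A B n p q (210 / 100) (249 / 100)) (h3 : 187 / 100 ≤ lo') (h4 : lo' ≤ hi')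
    (h5 : hi' ≤ 485 / 100) :
    ∃ p' q', p ≤ p' ∧ p' ≤ q' ∧ q' ≤ q ∧ Q g α A B (n + 13) p' q' lo' hi' := by
  obtain ⟨p1, q1, a1, b1, c1, d1⟩ := crossA hP hpq h (lo' := 421 / 100) (hi' := 497 / 100)
    (by norm_num) (by norm_num) (by norm_num) (by norm_num) (by norm_num)
  obtain ⟨p2, q2, a2, b2, c2, d2⟩ := crossA hP b1 d1 (lo' := 843 / 100) (hi' := 993 / 100)
    (by norm_num) (by norm_num) (by norm_num) (by norm_num) (by norm_num)
  obtain ⟨p3, q3, a3, b3, c3, d3⟩ := crossB hP b2 d2 (lo' := lo') (hi' := hi')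
    (by norm_num) (by norm_num) (by linarith) h4 (by linarith)
  exact ⟨p3, q3, by linarith, b3, by linarith, d3⟩

/-- from `[420/100, 480/100]` to `[210/100, 249/100]`, `10` steps -/
theorem crossAB (hP : Par g α A B) {n : ℕ} {p q : ℝ} (hpq : p ≤ q)
    (h : Q g α A B n p q (420 / 100) (480 / 100)) :
    ∃ p' q', p ≤ p' ∧ p' ≤ q' ∧ q' ≤ q ∧
      Q g α A B (n + 10) p' q' (210 / 100) (249 / 100) := by
  obtain ⟨p1, q1, a1, b1, c1, d1⟩ := crossA hP hpq h (lo' := 841 / 100) (hi' := 959 / 100)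
    (by norm_num) (by norm_num) (by norm_num) (by norm_num) (by norm_num)
  obtain ⟨p3, q3, a3, b3, c3, d3⟩ := crossB hP b1 d1 (lo' := 210 / 100) (hi' := 249 / 100)
    (by norm_num) (by norm_num) (by norm_num) (by norm_num) (by norm_num)
  exact ⟨p3, q3, by linarith, b3, by linarith, d3⟩

/-- lower ends of the two symbol intervals -/
noncomputable def lo : Bool → ℝ
  | true => 420 / 100
  | false => 210 / 100

/-- upper ends of the two symbol intervals -/
noncomputable def hi : Bool → ℝ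
  | true => 480 / 100
  | false => 249 / 100

theorem block (hP : Par g α A B) {n : ℕ} {p q : ℝ} (b b' : Bool) (hpq : p ≤ q)
    (h : Q g α A B n p q (lo b) (hi b)) :
    ∃ p' q', p ≤ p' ∧ p' ≤ q' ∧ q' ≤ q ∧ Q g α A B (n + 36) p' q' (lo b') (hi b') := by
  have hl' : 210 / 100 ≤ lo b' := by cases b' <;> norm_num [lo]
  have hlh' : lo b' ≤ hi b' := by cases b' <;> norm_num [lo, hi]
  have hh' : hi b' ≤ 480 / 100 := by cases b' <;> norm_num [hi]
  cases b with
  | false =>
    obtain ⟨p1, q1, a1, b1, c1, d1⟩ := crossAAB hP hpq h (lo' := 420 / 100)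
      (hi' := 480 / 100) (by norm_num) (by norm_num) (by norm_num)
    obtain ⟨p2, q2, a2, b2, c2, d2⟩ := crossAB hP b1 d1
    obtain ⟨p3, q3, a3, b3, c3, d3⟩ := crossAAB hP b2 d2 (lo' := lo b') (hi' := hi b')
      (by linarith) hlh' (by linarith)
    exact ⟨p3, q3, by linarith, b3, by linarith, d3⟩
  | true =>
    obtain ⟨p1, q1, a1, b1, c1, d1⟩ := crossAB hP hpq h
    obtain ⟨p2, q2, a2, b2, c2, d2⟩ := crossAAB hP b1 d1 (lo' := 210 / 100)
      (hi' := 249 / 100) (by norm_num) (by norm_num) (by norm_num)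
    obtain ⟨p3, q3, a3, b3, c3, d3⟩ := crossAAB hP b2 d2 (lo' := lo b') (hi' := hi b')
      (by linarith) hlh' (by linarith)
    exact ⟨p3, q3, by linarith, b3, by linarith, d3⟩

/-- Every symbol sequence is realised by a solution. -/
theorem itinerary (hP : Par g α A B) (ω : ℕ → Bool) : ∃ t : ℝ,
    (∀ j, lo (ω j) ≤ Y g α A B t (36 * j + 1) ∧ Y g α A B t (36 * j + 1) ≤ hi (ω j)) ∧
    ∀ n, Y g α A B t n ≤ 25 := by
  have hg0 : 0 < g := by linarith [hP.g0]
  have h0 : ∃ p q, p ≤ q ∧ Q g α A B (36 * 0) p q (lo (ω 0)) (hi (ω 0)) := by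
    have y0 : ∀ t, Y g α A B t 0 = 25 - t := by
      intro t
      simp only [Y, X, Real.log_exp]
      field_simp
    have y2 : ∀ t, Y g α A B t 2 = t - 20 := by
      intro t
      simp only [Y, X, Real.log_exp]
      field_simp
    have y1 : ∀ t, Y g α A B t 1 = t := by
      intro t
      simp only [Y, X, Real.log_exp]
      field_simp
    have hll : 2 ≤ lo (ω 0) := by cases ω 0 <;> norm_num [lo]
    have hlh : lo (ω 0) ≤ hi (ω 0) := by cases ω 0 <;> norm_num [lo, hi]
    have hh : hi (ω 0) ≤ 5 := by cases ω 0 <;> norm_num [hi]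
    refine ⟨lo (ω 0), hi (ω 0), hlh, ⟨Or.inl ⟨y1 _, y1 _⟩, ?_⟩, ?_⟩
    · intro t a b
      simp only [mul_zero, zero_add, y1]
      exact ⟨a, b⟩
    · intro t a b
      refine ⟨⟨?_, ?_, ?_, ?_⟩, ?_⟩
      · rw [mul_zero, zero_add, y0, y1]; norm_num
      · rw [mul_zero, zero_add, y0, y1]; norm_num
      · simp only [mul_zero, zero_add, y1, y2]; norm_num
      · simp only [mul_zero, zero_add, y1, y2]; norm_num
      · intro i hi2
        have : i = 0 ∨ i = 1 ∨ i = 2 := by omega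
        rcases this with rfl | rfl | rfl
        · rw [y0]; linarith
        · rw [y1]; linarith
        · rw [y2]; linarith
  obtain ⟨t, ht⟩ := nested (fun j p q => Q g α A B (36 * j) p q (lo (ω j)) (hi (ω j))) h0
    (by
      intro j p q hpq h
      have := block hP (ω j) (ω (j + 1)) hpq h
      rw [show 36 * (j + 1) = 36 * j + 36 by ring]
      exact this)
  refine ⟨t, ?_, ?_⟩
  · intro j
    obtain ⟨p, q, h1, h2, h3⟩ := ht j
    exact h3.1.2 t h1 h2
  · intro n
    obtain ⟨p, q, h1, h2, h3⟩ := ht n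
    exact (h3.2 t h1 h2).2 n (by omega)

/-- Existence of bounded solutions which are not asymptotically periodic. -/
theorem exists_nonperiodic (hP : Par g α A B) : ∃ x : ℕ → ℝ, (∀ n, 0 < x n) ∧
    (∀ n, x (n + 3) = (α + x n) / (A + B * x (n + 2) + x (n + 1))) ∧
    (∀ n, x n ≤ exp (25 * g)) ∧
    ∀ p : ℕ → ℝ, ∀ k : ℕ, 0 < k → (∀ n, p (n + k) = p n) →
      ¬ Filter.Tendsto (fun n => x n - p n) Filter.atTop (nhds 0) := by
  have hg0 : 0 < g := by linarith [hP.g0]
  obtain ⟨t, h1, h2⟩ := itinerary hP pw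
  refine ⟨X g α A B t, X_pos hP t, fun n => rfl, ?_, ?_⟩
  · intro n
    rw [← exp_Y hP t n]
    apply exp_le_exp.2
    have := mul_le_mul_of_nonneg_left (h2 n) hg0.le
    linarith
  · intro p k hk hp
    have hab : exp (g * (249 / 100)) < exp (g * (420 / 100)) := by
      apply exp_lt_exp.2
      exact mul_lt_mul_of_pos_left (by norm_num) hg0
    refine not_asymp_periodic (m := 36) (r := 1) hab hk (by norm_num) ?_ ?_ hp
    · intro j hj
      rw [mul_comm j 36, ← exp_Y hP t]
      apply exp_le_exp.2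
      have := (h1 j).1
      rw [hj] at this
      exact mul_le_mul_of_nonneg_left this hg0.le
    · intro j hj
      rw [mul_comm j 36, ← exp_Y hP t]
      apply exp_le_exp.2
      have := (h1 j).2
      rw [hj] at this
      exact mul_le_mul_of_nonneg_left this hg0.le

end family

end Pool.Agent.R206.Horse.B
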