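import Mathlib
import Pool.Agent.R206.Horse.Basic

/-! The recurrence `x' = w / (B u + w)`, `B = e^g`, `g` large; in the coordinates
`x = e^{-g (z + 1)}` it is `z' ≈ max (-1) (z_{n-2} - z_n)`. -/

namespace Pool.Agent.R206.Horse.Z

open Real Pool.Agent.R206.Horse

/-- two sided estimate for one step, in logarithmic coordinates -/
structure Tr (a c d : ℝ) : Prop where
  lo1 : -1 ≤ d
  lo2 : c - a ≤ d
  up1 : c - a ≤ -1 → d ≤ -1 + 1 / 1000000
  up2 : -1 ≤ c - a → d ≤ c - a + 1 / 1000000

theorem tr_of_step {g a c d : ℝ} (hg : 1000000 ≤ g)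
    (h : exp (g * (d + 1)) = 1 + exp (g * (1 + c - a))) : Tr a c d := by
  have hg0 : 0 < g := by linarith
  have h2 : (2 : ℝ) ≤ exp 1 := by
    have := add_one_le_exp (1 : ℝ)
    linarith
  have heps : (1 : ℝ) ≤ g * (1 / 1000000) := by linarith
  have e6 : (2 : ℝ) ≤ exp (g * (1 / 1000000)) := h2.trans (exp_le_exp.2 heps)
  have mono : ∀ {p q : ℝ}, exp (g * p) ≤ exp (g * q) → p ≤ q := by
    intro p q hpq
    exact le_of_mul_le_mul_left (exp_le_exp.1 hpq) hg0
  refine ⟨?_, ?_, ?_, ?_⟩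
  · have : exp (g * 0) ≤ exp (g * (d + 1)) := by
      rw [h, mul_zero, exp_zero]
      linarith [exp_pos (g * (1 + c - a))]
    linarith [mono this]
  · have : exp (g * (1 + c - a)) ≤ exp (g * (d + 1)) := by
      rw [h]
      linarith
    linarith [mono this]
  · intro hc
    have h1 : exp (g * (1 + c - a)) ≤ exp 0 := by
      apply exp_le_exp.2
      exact mul_nonpos_of_nonneg_of_nonpos hg0.le (by linarith)
    rw [exp_zero] at h1
    have : exp (g * (d + 1)) ≤ exp (g * (1 / 1000000)) := by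
      rw [h]
      linarith
    linarith [mono this]
  · intro hc
    have h1 : exp 0 ≤ exp (g * (1 + c - a)) := by
      apply exp_le_exp.2
      exact mul_nonneg hg0.le (by linarith)
    rw [exp_zero] at h1
    have e7 : exp (g * (1 / 1000000 + (1 + c - a))) =
        exp (g * (1 / 1000000)) * exp (g * (1 + c - a)) := by
      rw [← exp_add]; ring_nf
    have e8 : 2 * exp (g * (1 + c - a)) ≤
        exp (g * (1 / 1000000)) * exp (g * (1 + c - a)) :=
      mul_le_mul_of_nonneg_right e6 (exp_pos _).le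
    have : exp (g * (d + 1)) ≤ exp (g * (1 / 1000000 + (1 + c - a))) := by
      rw [h, e7]
      linarith
    linarith [mono this]

/-- state condition -/
structure St (y : ℕ → ℝ) (n : ℕ) : Prop where
  l1 : -1 ≤ y (n + 1)
  u1 : y (n + 1) ≤ -1 + 1 / 1000000
  l2 : -(1 / 1000000) ≤ y (n + 2)
  u2 : y (n + 2) ≤ 2 / 1000000

theorem moveJ {y : ℕ → ℝ} (h : ∀ n, Tr (y (n + 2)) (y n) (y (n + 3))) {n : ℕ}
    (hs : St y n) (h1 : 111 / 50 ≤ y n) (h2 : y n ≤ 227 / 100) :
    St y (n + 27) ∧ -(3 * y n) + 9 - 100 / 1000000 ≤ y (n + 27) ∧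
      y (n + 27) ≤ -(3 * y n) + 9 + 100 / 1000000 := by
  obtain ⟨l1, u1, l2, u2⟩ := hs
  have T3 := h n
  have T4 := h (n + 1)
  have T5 := h (n + 2)
  have T6 := h (n + 3)
  have T7 := h (n + 4)
  have T8 := h (n + 5)
  have T9 := h (n + 6)
  have T10 := h (n + 7)
  have T11 := h (n + 8)
  have T12 := h (n + 9)
  have T13 := h (n + 10)
  have T14 := h (n + 11)
  have T15 := h (n + 12)
  have T16 := h (n + 13)
  have T17 := h (n + 14)
  have T18 := h (n + 15)
  have T19 := h (n + 16)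
  have T20 := h (n + 17)
  have T21 := h (n + 18)
  have T22 := h (n + 19)
  have T23 := h (n + 20)
  have T24 := h (n + 21)
  have T25 := h (n + 22)
  have T26 := h (n + 23)
  have T27 := h (n + 24)
  have T28 := h (n + 25)
  have T29 := h (n + 26)
  simp only [add_assoc, Nat.reduceAdd] at T3 T4 T5 T6 T7 T8 T9 T10 T11 T12 T13 T14 T15 T16 T17 T18 T19 T20 T21 T22 T23 T24 T25 T26 T27 T28 T29
  generalize y n = s at *
  have u3 : y (n + 3) ≤ s + 2 / 1000000 := by
    linarith only [T3.up2 (by linarith only [h1, h2, u2]), l2]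
  have l3 : s - 2 / 1000000 ≤ y (n + 3) := by
    linarith only [T3.lo2, u2]
  have u4 : y (n + 4) ≤ -1 + 1 / 1000000 := T4.up1 (by linarith only [u1, l3, h1, h2])
  have l4 : -1 ≤ y (n + 4) := T4.lo1
  have u5 : y (n + 5) ≤ 1 + 3 / 1000000 := by
    linarith only [T5.up2 (by linarith only [l2, u4, h1, h2]), u2, l4]
  have l5 : 1 - 2 / 1000000 ≤ y (n + 5) := by
    linarith only [T5.lo2, l2, u4]
  have u6 : y (n + 6) ≤ s - 1 + 5 / 1000000 := by
    linarith only [T6.up2 (by linarith only [l3, u5, h1, h2]), u3, l5]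
  have l6 : s - 1 - 5 / 1000000 ≤ y (n + 6) := by
    linarith only [T6.lo2, l3, u5]
  have u7 : y (n + 7) ≤ -1 + 1 / 1000000 := T7.up1 (by linarith only [u4, l6, h1, h2])
  have l7 : -1 ≤ y (n + 7) := T7.lo1
  have u8 : y (n + 8) ≤ 2 + 4 / 1000000 := by
    linarith only [T8.up2 (by linarith only [l5, u7, h1, h2]), u5, l7]
  have l8 : 2 - 3 / 1000000 ≤ y (n + 8) := by
    linarith only [T8.lo2, l5, u7]
  have u9 : y (n + 9) ≤ s - 3 + 9 / 1000000 := by
    linarith only [T9.up2 (by linarith only [l6, u8, h1, h2]), u6, l8]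
  have l9 : s - 3 - 9 / 1000000 ≤ y (n + 9) := by
    linarith only [T9.lo2, l6, u8]
  have u10 : y (n + 10) ≤ -s + 2 + 11 / 1000000 := by
    linarith only [T10.up2 (by linarith only [l7, u9, h1, h2]), u7, l9]
  have l10 : -s + 2 - 9 / 1000000 ≤ y (n + 10) := by
    linarith only [T10.lo2, l7, u9]
  have u11 : y (n + 11) ≤ s + 14 / 1000000 := by
    linarith only [T11.up2 (by linarith only [l8, u10, h1, h2]), u8, l10]
  have l11 : s - 14 / 1000000 ≤ y (n + 11) := by
    linarith only [T11.lo2, l8, u10]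
  have u12 : y (n + 12) ≤ -1 + 1 / 1000000 := T12.up1 (by linarith only [u9, l11, h1, h2])
  have l12 : -1 ≤ y (n + 12) := T12.lo1
  have u13 : y (n + 13) ≤ -s + 3 + 12 / 1000000 := by
    linarith only [T13.up2 (by linarith only [l10, u12, h1, h2]), u10, l12]
  have l13 : -s + 3 - 10 / 1000000 ≤ y (n + 13) := by
    linarith only [T13.lo2, l10, u12]
  have u14 : y (n + 14) ≤ 2 * s - 3 + 25 / 1000000 := by
    linarith only [T14.up2 (by linarith only [l11, u13, h1, h2]), u11, l13]
  have l14 : 2 * s - 3 - 26 / 1000000 ≤ y (n + 14) := by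
    linarith only [T14.lo2, l11, u13]
  have u15 : y (n + 15) ≤ -1 + 1 / 1000000 := T15.up1 (by linarith only [u12, l14, h1, h2])
  have l15 : -1 ≤ y (n + 15) := T15.lo1
  have u16 : y (n + 16) ≤ -s + 4 + 13 / 1000000 := by
    linarith only [T16.up2 (by linarith only [l13, u15, h1, h2]), u13, l15]
  have l16 : -s + 4 - 11 / 1000000 ≤ y (n + 16) := by
    linarith only [T16.lo2, l13, u15]
  have u17 : y (n + 17) ≤ 3 * s - 7 + 37 / 1000000 := by
    linarith only [T17.up2 (by linarith only [l14, u16, h1, h2]), u14, l16]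
  have l17 : 3 * s - 7 - 39 / 1000000 ≤ y (n + 17) := by
    linarith only [T17.lo2, l14, u16]
  have u18 : y (n + 18) ≤ -(3 * s) + 6 + 41 / 1000000 := by
    linarith only [T18.up2 (by linarith only [l15, u17, h1, h2]), u15, l17]
  have l18 : -(3 * s) + 6 - 37 / 1000000 ≤ y (n + 18) := by
    linarith only [T18.lo2, l15, u17]
  have u19 : y (n + 19) ≤ 2 * s - 2 + 51 / 1000000 := by
    linarith only [T19.up2 (by linarith only [l16, u18, h1, h2]), u16, l18]
  have l19 : 2 * s - 2 - 52 / 1000000 ≤ y (n + 19) := by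
    linarith only [T19.lo2, l16, u18]
  have u20 : y (n + 20) ≤ -1 + 1 / 1000000 := T20.up1 (by linarith only [u17, l19, h1, h2])
  have l20 : -1 ≤ y (n + 20) := T20.lo1
  have u21 : y (n + 21) ≤ -(3 * s) + 7 + 42 / 1000000 := by
    linarith only [T21.up2 (by linarith only [l18, u20, h1, h2]), u18, l20]
  have l21 : -(3 * s) + 7 - 38 / 1000000 ≤ y (n + 21) := by
    linarith only [T21.lo2, l18, u20]
  have u22 : y (n + 22) ≤ 5 * s - 9 + 90 / 1000000 := by
    linarith only [T22.up2 (by linarith only [l19, u21, h1, h2]), u19, l21]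
  have l22 : 5 * s - 9 - 94 / 1000000 ≤ y (n + 22) := by
    linarith only [T22.lo2, l19, u21]
  have u23 : y (n + 23) ≤ -1 + 1 / 1000000 := T23.up1 (by linarith only [u20, l22, h1, h2])
  have l23 : -1 ≤ y (n + 23) := T23.lo1
  have u24 : y (n + 24) ≤ -(3 * s) + 8 + 43 / 1000000 := by
    linarith only [T24.up2 (by linarith only [l21, u23, h1, h2]), u21, l23]
  have l24 : -(3 * s) + 8 - 39 / 1000000 ≤ y (n + 24) := by
    linarith only [T24.lo2, l21, u23]
  have u25 : y (n + 25) ≤ 8 * s - 17 + 130 / 1000000 := by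
    linarith only [T25.up2 (by linarith only [l22, u24, h1, h2]), u22, l24]
  have l25 : 8 * s - 17 - 137 / 1000000 ≤ y (n + 25) := by
    linarith only [T25.lo2, l22, u24]
  have u26 : y (n + 26) ≤ -1 + 1 / 1000000 := T26.up1 (by linarith only [u23, l25, h1, h2])
  have l26 : -1 ≤ y (n + 26) := T26.lo1
  have u27 : y (n + 27) ≤ -(3 * s) + 9 + 44 / 1000000 := by
    linarith only [T27.up2 (by linarith only [l24, u26, h1, h2]), u24, l26]
  have l27 : -(3 * s) + 9 - 40 / 1000000 ≤ y (n + 27) := by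
    linarith only [T27.lo2, l24, u26]
  have u28 : y (n + 28) ≤ -1 + 1 / 1000000 := T28.up1 (by linarith only [u25, l27, h1, h2])
  have l28 : -1 ≤ y (n + 28) := T28.lo1
  have u29 : y (n + 29) ≤ 0 + 2 / 1000000 := by
    linarith only [T29.up2 (by linarith only [l26, u28, h1, h2]), u26, l28]
  have l29 : 0 - 1 / 1000000 ≤ y (n + 29) := by
    linarith only [T29.lo2, l26, u28]
  refine ⟨⟨l28, u28, ?_, ?_⟩, ?_, ?_⟩
  · show -(1 / 1000000) ≤ y (n + 29); linarith only [l29]
  · show y (n + 29) ≤ 2 / 1000000; linarith only [u29]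
  · linarith only [l27]
  · linarith only [u27]

theorem moveK {y : ℕ → ℝ} (h : ∀ n, Tr (y (n + 2)) (y n) (y (n + 3))) {n : ℕ}
    (hs : St y n) (h1 : 457 / 200 ≤ y n) (h2 : y n ≤ 5733 / 2500) :
    St y (n + 46) ∧ -(30 * y n) + 71 - 1000 / 1000000 ≤ y (n + 46) ∧
      y (n + 46) ≤ -(30 * y n) + 71 + 1000 / 1000000 := by
  obtain ⟨l1, u1, l2, u2⟩ := hs
  have T3 := h n
  have T4 := h (n + 1)
  have T5 := h (n + 2)
  have T6 := h (n + 3)
  have T7 := h (n + 4)
  have T8 := h (n + 5)
  have T9 := h (n + 6)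
  have T10 := h (n + 7)
  have T11 := h (n + 8)
  have T12 := h (n + 9)
  have T13 := h (n + 10)
  have T14 := h (n + 11)
  have T15 := h (n + 12)
  have T16 := h (n + 13)
  have T17 := h (n + 14)
  have T18 := h (n + 15)
  have T19 := h (n + 16)
  have T20 := h (n + 17)
  have T21 := h (n + 18)
  have T22 := h (n + 19)
  have T23 := h (n + 20)
  have T24 := h (n + 21)
  have T25 := h (n + 22)
  have T26 := h (n + 23)
  have T27 := h (n + 24)
  have T28 := h (n + 25)
  have T29 := h (n + 26)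
  have T30 := h (n + 27)
  have T31 := h (n + 28)
  have T32 := h (n + 29)
  have T33 := h (n + 30)
  have T34 := h (n + 31)
  have T35 := h (n + 32)
  have T36 := h (n + 33)
  have T37 := h (n + 34)
  have T38 := h (n + 35)
  have T39 := h (n + 36)
  have T40 := h (n + 37)
  have T41 := h (n + 38)
  have T42 := h (n + 39)
  have T43 := h (n + 40)
  have T44 := h (n + 41)
  have T45 := h (n + 42)
  have T46 := h (n + 43)
  have T47 := h (n + 44)
  have T48 := h (n + 45)
  simp only [add_assoc, Nat.reduceAdd] at T3 T4 T5 T6 T7 T8 T9 T10 T11 T12 T13 T14 T15 T16 T17 T18 T19 T20 T21 T22 T23 T24 T25 T26 T27 T28 T29 T30 T31 T32 T33 T34 T35 T36 T37 T38 T39 T40 T41 T42 T43 T44 T45 T46 T47 T48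
  generalize y n = s at *
  have u3 : y (n + 3) ≤ s + 2 / 1000000 := by
    linarith only [T3.up2 (by linarith only [h1, h2, u2]), l2]
  have l3 : s - 2 / 1000000 ≤ y (n + 3) := by
    linarith only [T3.lo2, u2]
  have u4 : y (n + 4) ≤ -1 + 1 / 1000000 := T4.up1 (by linarith only [u1, l3, h1, h2])
  have l4 : -1 ≤ y (n + 4) := T4.lo1
  have u5 : y (n + 5) ≤ 1 + 3 / 1000000 := by
    linarith only [T5.up2 (by linarith only [l2, u4, h1, h2]), u2, l4]
  have l5 : 1 - 2 / 1000000 ≤ y (n + 5) := by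
    linarith only [T5.lo2, l2, u4]
  have u6 : y (n + 6) ≤ s - 1 + 5 / 1000000 := by
    linarith only [T6.up2 (by linarith only [l3, u5, h1, h2]), u3, l5]
  have l6 : s - 1 - 5 / 1000000 ≤ y (n + 6) := by
    linarith only [T6.lo2, l3, u5]
  have u7 : y (n + 7) ≤ -1 + 1 / 1000000 := T7.up1 (by linarith only [u4, l6, h1, h2])
  have l7 : -1 ≤ y (n + 7) := T7.lo1
  have u8 : y (n + 8) ≤ 2 + 4 / 1000000 := by
    linarith only [T8.up2 (by linarith only [l5, u7, h1, h2]), u5, l7]
  have l8 : 2 - 3 / 1000000 ≤ y (n + 8) := by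
    linarith only [T8.lo2, l5, u7]
  have u9 : y (n + 9) ≤ s - 3 + 9 / 1000000 := by
    linarith only [T9.up2 (by linarith only [l6, u8, h1, h2]), u6, l8]
  have l9 : s - 3 - 9 / 1000000 ≤ y (n + 9) := by
    linarith only [T9.lo2, l6, u8]
  have u10 : y (n + 10) ≤ -s + 2 + 11 / 1000000 := by
    linarith only [T10.up2 (by linarith only [l7, u9, h1, h2]), u7, l9]
  have l10 : -s + 2 - 9 / 1000000 ≤ y (n + 10) := by
    linarith only [T10.lo2, l7, u9]
  have u11 : y (n + 11) ≤ s + 14 / 1000000 := by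
    linarith only [T11.up2 (by linarith only [l8, u10, h1, h2]), u8, l10]
  have l11 : s - 14 / 1000000 ≤ y (n + 11) := by
    linarith only [T11.lo2, l8, u10]
  have u12 : y (n + 12) ≤ -1 + 1 / 1000000 := T12.up1 (by linarith only [u9, l11, h1, h2])
  have l12 : -1 ≤ y (n + 12) := T12.lo1
  have u13 : y (n + 13) ≤ -s + 3 + 12 / 1000000 := by
    linarith only [T13.up2 (by linarith only [l10, u12, h1, h2]), u10, l12]
  have l13 : -s + 3 - 10 / 1000000 ≤ y (n + 13) := by
    linarith only [T13.lo2, l10, u12]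
  have u14 : y (n + 14) ≤ 2 * s - 3 + 25 / 1000000 := by
    linarith only [T14.up2 (by linarith only [l11, u13, h1, h2]), u11, l13]
  have l14 : 2 * s - 3 - 26 / 1000000 ≤ y (n + 14) := by
    linarith only [T14.lo2, l11, u13]
  have u15 : y (n + 15) ≤ -1 + 1 / 1000000 := T15.up1 (by linarith only [u12, l14, h1, h2])
  have l15 : -1 ≤ y (n + 15) := T15.lo1
  have u16 : y (n + 16) ≤ -s + 4 + 13 / 1000000 := by
    linarith only [T16.up2 (by linarith only [l13, u15, h1, h2]), u13, l15]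
  have l16 : -s + 4 - 11 / 1000000 ≤ y (n + 16) := by
    linarith only [T16.lo2, l13, u15]
  have u17 : y (n + 17) ≤ 3 * s - 7 + 37 / 1000000 := by
    linarith only [T17.up2 (by linarith only [l14, u16, h1, h2]), u14, l16]
  have l17 : 3 * s - 7 - 39 / 1000000 ≤ y (n + 17) := by
    linarith only [T17.lo2, l14, u16]
  have u18 : y (n + 18) ≤ -(3 * s) + 6 + 41 / 1000000 := by
    linarith only [T18.up2 (by linarith only [l15, u17, h1, h2]), u15, l17]
  have l18 : -(3 * s) + 6 - 37 / 1000000 ≤ y (n + 18) := by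
    linarith only [T18.lo2, l15, u17]
  have u19 : y (n + 19) ≤ 2 * s - 2 + 51 / 1000000 := by
    linarith only [T19.up2 (by linarith only [l16, u18, h1, h2]), u16, l18]
  have l19 : 2 * s - 2 - 52 / 1000000 ≤ y (n + 19) := by
    linarith only [T19.lo2, l16, u18]
  have u20 : y (n + 20) ≤ -1 + 1 / 1000000 := T20.up1 (by linarith only [u17, l19, h1, h2])
  have l20 : -1 ≤ y (n + 20) := T20.lo1
  have u21 : y (n + 21) ≤ -(3 * s) + 7 + 42 / 1000000 := by
    linarith only [T21.up2 (by linarith only [l18, u20, h1, h2]), u18, l20]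
  have l21 : -(3 * s) + 7 - 38 / 1000000 ≤ y (n + 21) := by
    linarith only [T21.lo2, l18, u20]
  have u22 : y (n + 22) ≤ 5 * s - 9 + 90 / 1000000 := by
    linarith only [T22.up2 (by linarith only [l19, u21, h1, h2]), u19, l21]
  have l22 : 5 * s - 9 - 94 / 1000000 ≤ y (n + 22) := by
    linarith only [T22.lo2, l19, u21]
  have u23 : y (n + 23) ≤ -1 + 1 / 1000000 := T23.up1 (by linarith only [u20, l22, h1, h2])
  have l23 : -1 ≤ y (n + 23) := T23.lo1
  have u24 : y (n + 24) ≤ -(3 * s) + 8 + 43 / 1000000 := by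
    linarith only [T24.up2 (by linarith only [l21, u23, h1, h2]), u21, l23]
  have l24 : -(3 * s) + 8 - 39 / 1000000 ≤ y (n + 24) := by
    linarith only [T24.lo2, l21, u23]
  have u25 : y (n + 25) ≤ 8 * s - 17 + 130 / 1000000 := by
    linarith only [T25.up2 (by linarith only [l22, u24, h1, h2]), u22, l24]
  have l25 : 8 * s - 17 - 137 / 1000000 ≤ y (n + 25) := by
    linarith only [T25.lo2, l22, u24]
  have u26 : y (n + 26) ≤ -1 + 1 / 1000000 := T26.up1 (by linarith only [u23, l25, h1, h2])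
  have l26 : -1 ≤ y (n + 26) := T26.lo1
  have u27 : y (n + 27) ≤ -(3 * s) + 9 + 44 / 1000000 := by
    linarith only [T27.up2 (by linarith only [l24, u26, h1, h2]), u24, l26]
  have l27 : -(3 * s) + 9 - 40 / 1000000 ≤ y (n + 27) := by
    linarith only [T27.lo2, l24, u26]
  have u28 : y (n + 28) ≤ 11 * s - 26 + 171 / 1000000 := by
    linarith only [T28.up2 (by linarith only [l25, u27, h1, h2]), u25, l27]
  have l28 : 11 * s - 26 - 181 / 1000000 ≤ y (n + 28) := by
    linarith only [T28.lo2, l25, u27]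
  have u29 : y (n + 29) ≤ -(11 * s) + 25 + 183 / 1000000 := by
    linarith only [T29.up2 (by linarith only [l26, u28, h1, h2]), u26, l28]
  have l29 : -(11 * s) + 25 - 171 / 1000000 ≤ y (n + 29) := by
    linarith only [T29.lo2, l26, u28]
  have u30 : y (n + 30) ≤ 8 * s - 16 + 216 / 1000000 := by
    linarith only [T30.up2 (by linarith only [l27, u29, h1, h2]), u27, l29]
  have l30 : 8 * s - 16 - 223 / 1000000 ≤ y (n + 30) := by
    linarith only [T30.lo2, l27, u29]
  have u31 : y (n + 31) ≤ -1 + 1 / 1000000 := T31.up1 (by linarith only [u28, l30, h1, h2])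
  have l31 : -1 ≤ y (n + 31) := T31.lo1
  have u32 : y (n + 32) ≤ -(11 * s) + 26 + 184 / 1000000 := by
    linarith only [T32.up2 (by linarith only [l29, u31, h1, h2]), u29, l31]
  have l32 : -(11 * s) + 26 - 172 / 1000000 ≤ y (n + 32) := by
    linarith only [T32.lo2, l29, u31]
  have u33 : y (n + 33) ≤ 19 * s - 42 + 389 / 1000000 := by
    linarith only [T33.up2 (by linarith only [l30, u32, h1, h2]), u30, l32]
  have l33 : 19 * s - 42 - 407 / 1000000 ≤ y (n + 33) := by
    linarith only [T33.lo2, l30, u32]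
  have u34 : y (n + 34) ≤ -1 + 1 / 1000000 := T34.up1 (by linarith only [u31, l33, h1, h2])
  have l34 : -1 ≤ y (n + 34) := T34.lo1
  have u35 : y (n + 35) ≤ -(11 * s) + 27 + 185 / 1000000 := by
    linarith only [T35.up2 (by linarith only [l32, u34, h1, h2]), u32, l34]
  have l35 : -(11 * s) + 27 - 173 / 1000000 ≤ y (n + 35) := by
    linarith only [T35.lo2, l32, u34]
  have u36 : y (n + 36) ≤ 30 * s - 69 + 563 / 1000000 := by
    linarith only [T36.up2 (by linarith only [l33, u35, h1, h2]), u33, l35]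
  have l36 : 30 * s - 69 - 592 / 1000000 ≤ y (n + 36) := by
    linarith only [T36.lo2, l33, u35]
  have u37 : y (n + 37) ≤ -(30 * s) + 68 + 594 / 1000000 := by
    linarith only [T37.up2 (by linarith only [l34, u36, h1, h2]), u34, l36]
  have l37 : -(30 * s) + 68 - 563 / 1000000 ≤ y (n + 37) := by
    linarith only [T37.lo2, l34, u36]
  have u38 : y (n + 38) ≤ 19 * s - 41 + 749 / 1000000 := by
    linarith only [T38.up2 (by linarith only [l35, u37, h1, h2]), u35, l37]
  have l38 : 19 * s - 41 - 767 / 1000000 ≤ y (n + 38) := by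
    linarith only [T38.lo2, l35, u37]
  have u39 : y (n + 39) ≤ -1 + 1 / 1000000 := T39.up1 (by linarith only [u36, l38, h1, h2])
  have l39 : -1 ≤ y (n + 39) := T39.lo1
  have u40 : y (n + 40) ≤ -(30 * s) + 69 + 595 / 1000000 := by
    linarith only [T40.up2 (by linarith only [l37, u39, h1, h2]), u37, l39]
  have l40 : -(30 * s) + 69 - 564 / 1000000 ≤ y (n + 40) := by
    linarith only [T40.lo2, l37, u39]
  have u41 : y (n + 41) ≤ 49 * s - 110 + 1314 / 1000000 := by
    linarith only [T41.up2 (by linarith only [l38, u40, h1, h2]), u38, l40]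
  have l41 : 49 * s - 110 - 1362 / 1000000 ≤ y (n + 41) := by
    linarith only [T41.lo2, l38, u40]
  have u42 : y (n + 42) ≤ -1 + 1 / 1000000 := T42.up1 (by linarith only [u39, l41, h1, h2])
  have l42 : -1 ≤ y (n + 42) := T42.lo1
  have u43 : y (n + 43) ≤ -(30 * s) + 70 + 596 / 1000000 := by
    linarith only [T43.up2 (by linarith only [l40, u42, h1, h2]), u40, l42]
  have l43 : -(30 * s) + 70 - 565 / 1000000 ≤ y (n + 43) := by
    linarith only [T43.lo2, l40, u42]
  have u44 : y (n + 44) ≤ 79 * s - 180 + 1880 / 1000000 := by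
    linarith only [T44.up2 (by linarith only [l41, u43, h1, h2]), u41, l43]
  have l44 : 79 * s - 180 - 1958 / 1000000 ≤ y (n + 44) := by
    linarith only [T44.lo2, l41, u43]
  have u45 : y (n + 45) ≤ -1 + 1 / 1000000 := T45.up1 (by linarith only [u42, l44, h1, h2])
  have l45 : -1 ≤ y (n + 45) := T45.lo1
  have u46 : y (n + 46) ≤ -(30 * s) + 71 + 597 / 1000000 := by
    linarith only [T46.up2 (by linarith only [l43, u45, h1, h2]), u43, l45]
  have l46 : -(30 * s) + 71 - 566 / 1000000 ≤ y (n + 46) := by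
    linarith only [T46.lo2, l43, u45]
  have u47 : y (n + 47) ≤ -1 + 1 / 1000000 := T47.up1 (by linarith only [u44, l46, h1, h2])
  have l47 : -1 ≤ y (n + 47) := T47.lo1
  have u48 : y (n + 48) ≤ 0 + 2 / 1000000 := by
    linarith only [T48.up2 (by linarith only [l45, u47, h1, h2]), u45, l47]
  have l48 : 0 - 1 / 1000000 ≤ y (n + 48) := by
    linarith only [T48.lo2, l45, u47]
  refine ⟨⟨l47, u47, ?_, ?_⟩, ?_, ?_⟩
  · show -(1 / 1000000) ≤ y (n + 48); linarith only [l48]
  · show y (n + 48) ≤ 2 / 1000000; linarith only [u48]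
  · linarith only [l46]
  · linarith only [u46]

/-- the one-parameter family of solutions -/
noncomputable def X (g t : ℝ) : ℕ → ℝ
  | 0 => exp (-(g * (t + 1)))
  | 1 => 1
  | 2 => exp (-g)
  | (n + 3) => X g t n / (exp g * X g t (n + 2) + X g t n)

section family

variable {g : ℝ}

theorem X_pos (g t : ℝ) : ∀ n, 0 < X g t n := by
  have key : ∀ n, 0 < X g t n ∧ 0 < X g t (n + 1) ∧ 0 < X g t (n + 2) := by
    intro n
    induction n with
    | zero =>
      refine ⟨?_, ?_, ?_⟩
      · simpa [X] using exp_pos (-(g * (t + 1)))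
      · simp [X]
      · simpa [X] using exp_pos (-g)
    | succ n ih =>
      obtain ⟨a, b, c⟩ := ih
      refine ⟨b, c, ?_⟩
      show 0 < X g t n / (exp g * X g t (n + 2) + X g t n)
      have := exp_pos g
      positivity
  exact fun n => (key n).1

theorem X_cont (g : ℝ) : ∀ n, Continuous fun t => X g t n := by
  have key : ∀ n, (Continuous fun t => X g t n) ∧
      (Continuous fun t => X g t (n + 1)) ∧ (Continuous fun t => X g t (n + 2)) := by
    intro n
    induction n with
    | zero =>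
      refine ⟨?_, ?_, ?_⟩
      · simp only [X]; fun_prop
      · simp only [X]; fun_prop
      · simp only [X]; fun_prop
    | succ n ih =>
      obtain ⟨a, b, c⟩ := ih
      refine ⟨b, c, ?_⟩
      show Continuous fun t => X g t n / (exp g * X g t (n + 2) + X g t n)
      refine Continuous.div (by fun_prop) (by fun_prop) ?_
      intro t
      have h1 := X_pos g t n
      have h3 := X_pos g t (n + 2)
      have := exp_pos g
      positivity
  exact fun n => (key n).1

/-- logarithmic coordinates -/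
noncomputable def Y (g t : ℝ) (n : ℕ) : ℝ := -(Real.log (X g t n)) / g - 1

theorem X_eq (hg0 : 0 < g) (t : ℝ) (n : ℕ) : X g t n = exp (-(g * (Y g t n + 1))) := by
  unfold Y
  have : -(g * (-(Real.log (X g t n)) / g - 1 + 1)) = Real.log (X g t n) := by
    field_simp
    ring
  rw [this, Real.exp_log (X_pos g t n)]

theorem Y_cont (g : ℝ) (n : ℕ) : Continuous fun t => Y g t n := by
  unfold Y
  exact ((((X_cont g n).log (fun t => (X_pos g t n).ne')).neg).div_const g).sub
    continuous_const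

theorem Y_tr (hg : 1000000 ≤ g) (t : ℝ) (n : ℕ) :
    Tr (Y g t (n + 2)) (Y g t n) (Y g t (n + 3)) := by
  have hg0 : 0 < g := by linarith
  apply tr_of_step hg
  have h1 : X g t (n + 3) = X g t n / (exp g * X g t (n + 2) + X g t n) := rfl
  have hpos : 0 < exp g * X g t (n + 2) + X g t n := by
    have h1 := X_pos g t n
    have h3 := X_pos g t (n + 2)
    have := exp_pos g
    positivity
  rw [eq_div_iff hpos.ne', X_eq hg0 t n, X_eq hg0 t (n + 2), X_eq hg0 t (n + 3)] at h1
  -- multiply by `exp (g (c + 1)) * exp (g (d + 1))`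
  have e1 : exp (g * (Y g t (n + 3) + 1)) * exp (-(g * (Y g t (n + 3) + 1))) = 1 := by
    rw [← exp_add, add_neg_cancel, exp_zero]
  have e2 : exp (g * (Y g t n + 1)) * exp (-(g * (Y g t n + 1))) = 1 := by
    rw [← exp_add, add_neg_cancel, exp_zero]
  have e3 : exp (g * (1 + Y g t n - Y g t (n + 2))) =
      exp g * exp (-(g * (Y g t (n + 2) + 1))) * exp (g * (Y g t n + 1)) := by
    rw [← exp_add, ← exp_add]; ring_nf
  rw [e3]
  set D := exp (g * (Y g t (n + 3) + 1))
  set D' := exp (-(g * (Y g t (n + 3) + 1)))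
  set C := exp (g * (Y g t n + 1))
  set C' := exp (-(g * (Y g t n + 1)))
  set A' := exp (-(g * (Y g t (n + 2) + 1)))
  calc D = D * (C * C') := by rw [e2, mul_one]
    _ = D * C * (D' * (exp g * A' + C')) := by rw [h1]; ring
    _ = (D * D') * C * (exp g * A' + C') := by ring
    _ = C * (exp g * A' + C') := by rw [e1, one_mul]
    _ = (C * C') + exp g * A' * C := by ring
    _ = 1 + exp g * A' * C := by rw [e2]

/-- the inductive property -/
def Q (g : ℝ) (n : ℕ) (p q lo hi : ℝ) : Prop :=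
  Crosses (fun t => Y g t n) p q lo hi ∧ ∀ t, p ≤ t → t ≤ q → St (Y g t) n

theorem crossJ (hg : 1000000 ≤ g) {n : ℕ} {p q lo' hi' : ℝ} (hpq : p ≤ q)
    (h : Q g n p q (222 / 100) (227 / 100))
    (h3 : 22 / 10 ≤ lo') (h4 : lo' ≤ hi') (h5 : hi' ≤ 23 / 10) :
    ∃ p' q', p ≤ p' ∧ p' ≤ q' ∧ q' ≤ q ∧ Q g (n + 27) p' q' lo' hi' := by
  obtain ⟨⟨hends, hin⟩, hst⟩ := h
  simp only at hends hin
  have hm : ∀ t, p ≤ t → t ≤ q → _ := fun t a b =>
    moveJ (Y_tr hg t) (hst t a b) (by linarith [(hin t a b).1]) ((hin t a b).2)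
  have mp := hm p le_rfl hpq
  have mq := hm q hpq le_rfl
  have hends' : (Y g p (n + 27) ≤ lo' ∧ hi' ≤ Y g q (n + 27)) ∨
      (hi' ≤ Y g p (n + 27) ∧ Y g q (n + 27) ≤ lo') := by
    rcases hends with ⟨e1, e2⟩ | ⟨e1, e2⟩
    · right
      rw [e1] at mp
      rw [e2] at mq
      exact ⟨by linarith [mp.2.1], by linarith [mq.2.2]⟩
    · left
      rw [e1] at mp
      rw [e2] at mq
      exact ⟨by linarith [mp.2.2], by linarith [mq.2.1]⟩
  obtain ⟨p', q', a, b, c, d⟩ := sub_cross' hpq (Y_cont g (n + 27)).continuousOn hends' h4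
  exact ⟨p', q', a, b, c, d, fun t t1 t2 => (hm t (a.trans t1) (t2.trans c)).1⟩

theorem crossK (hg : 1000000 ≤ g) {n : ℕ} {p q lo' hi' : ℝ} (hpq : p ≤ q)
    (h : Q g n p q (2285 / 1000) (22932 / 10000))
    (h3 : 221 / 100 ≤ lo') (h4 : lo' ≤ hi') (h5 : hi' ≤ 23 / 10) :
    ∃ p' q', p ≤ p' ∧ p' ≤ q' ∧ q' ≤ q ∧ Q g (n + 46) p' q' lo' hi' := by
  obtain ⟨⟨hends, hin⟩, hst⟩ := h
  simp only at hends hin
  have hm : ∀ t, p ≤ t → t ≤ q → _ := fun t a b =>
    moveK (Y_tr hg t) (hst t a b) (by linarith [(hin t a b).1]) (by linarith [(hin t a b).2])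
  have mp := hm p le_rfl hpq
  have mq := hm q hpq le_rfl
  have hends' : (Y g p (n + 46) ≤ lo' ∧ hi' ≤ Y g q (n + 46)) ∨
      (hi' ≤ Y g p (n + 46) ∧ Y g q (n + 46) ≤ lo') := by
    rcases hends with ⟨e1, e2⟩ | ⟨e1, e2⟩
    · right
      rw [e1] at mp
      rw [e2] at mq
      exact ⟨by linarith [mp.2.1], by linarith [mq.2.2]⟩
    · left
      rw [e1] at mp
      rw [e2] at mq
      exact ⟨by linarith [mp.2.2], by linarith [mq.2.1]⟩
  obtain ⟨p', q', a, b, c, d⟩ := sub_cross' hpq (Y_cont g (n + 46)).continuousOn hends' h4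
  exact ⟨p', q', a, b, c, d, fun t t1 t2 => (hm t (a.trans t1) (t2.trans c)).1⟩

/-- lower ends of the two symbol intervals -/
noncomputable def lo : Bool → ℝ
  | true => 222 / 100
  | false => 2285 / 1000

/-- upper ends of the two symbol intervals -/
noncomputable def hi : Bool → ℝ
  | true => 227 / 100
  | false => 22932 / 10000

theorem block (hg : 1000000 ≤ g) {n : ℕ} {p q : ℝ} (b b' : Bool) (hpq : p ≤ q)
    (h : Q g n p q (lo b) (hi b)) :
    ∃ p' q', p ≤ p' ∧ p' ≤ q' ∧ q' ≤ q ∧ Q g (n + 73) p' q' (lo b') (hi b') := by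
  have hl' : 222 / 100 ≤ lo b' := by cases b' <;> norm_num [lo]
  have hlh' : lo b' ≤ hi b' := by cases b' <;> norm_num [lo, hi]
  have hh' : hi b' ≤ 23 / 10 := by cases b' <;> norm_num [hi]
  cases b with
  | true =>
    obtain ⟨p1, q1, a1, b1, c1, d1⟩ := crossJ hg hpq h (lo' := 2285 / 1000)
      (hi' := 22932 / 10000) (by norm_num) (by norm_num) (by norm_num)
    obtain ⟨p2, q2, a2, b2, c2, d2⟩ := crossK hg b1 d1 (lo' := lo b') (hi' := hi b')
      (by linarith) hlh' hh'
    exact ⟨p2, q2, by linarith, b2, by linarith, d2⟩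
  | false =>
    obtain ⟨p1, q1, a1, b1, c1, d1⟩ := crossK hg hpq h (lo' := 222 / 100)
      (hi' := 227 / 100) (by norm_num) (by norm_num) (by norm_num)
    obtain ⟨p2, q2, a2, b2, c2, d2⟩ := crossJ hg b1 d1 (lo' := lo b') (hi' := hi b')
      (by linarith) hlh' hh'
    exact ⟨p2, q2, by linarith, b2, by linarith, d2⟩

/-- Every symbol sequence is realised by a solution. -/
theorem itinerary (hg : 1000000 ≤ g) (ω : ℕ → Bool) : ∃ t : ℝ,
    ∀ j, lo (ω j) ≤ Y g t (73 * j) ∧ Y g t (73 * j) ≤ hi (ω j) := by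
  have hg0 : 0 < g := by linarith
  have h0 : ∃ p q, p ≤ q ∧ Q g (73 * 0) p q (lo (ω 0)) (hi (ω 0)) := by
    have y0 : ∀ t, Y g t 0 = t := by
      intro t
      simp only [Y, X, Real.log_exp]
      field_simp
      ring
    have y1 : ∀ t, Y g t 1 = -1 := by
      intro t
      simp only [Y, X, Real.log_one]
      norm_num
    have y2 : ∀ t, Y g t 2 = 0 := by
      intro t
      simp only [Y, X, Real.log_exp]
      field_simp
      ring
    have hlh : lo (ω 0) ≤ hi (ω 0) := by cases ω 0 <;> norm_num [lo, hi]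
    refine ⟨lo (ω 0), hi (ω 0), hlh, ⟨Or.inl ⟨y0 _, y0 _⟩, ?_⟩, ?_⟩
    · intro t a b
      simp only [mul_zero, y0]
      exact ⟨a, b⟩
    · intro t a b
      refine ⟨?_, ?_, ?_, ?_⟩
      · simp only [mul_zero, zero_add, y1]; norm_num
      · simp only [mul_zero, zero_add, y1]; norm_num
      · simp only [mul_zero, zero_add, y2]; norm_num
      · simp only [mul_zero, zero_add, y2]; norm_num
  obtain ⟨t, ht⟩ := nested (fun j p q => Q g (73 * j) p q (lo (ω j)) (hi (ω j))) h0
    (by
      intro j p q hpq h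
      have := block hg (ω j) (ω (j + 1)) hpq h
      rw [show 73 * (j + 1) = 73 * j + 73 by ring]
      exact this)
  refine ⟨t, ?_⟩
  intro j
  obtain ⟨p, q, h1, h2, h3⟩ := ht j
  exact h3.1.2 t h1 h2

/-- Existence of positive solutions which are not asymptotically periodic. -/
theorem exists_nonperiodic (hg : 1000000 ≤ g) : ∃ x : ℕ → ℝ, (∀ n, 0 < x n) ∧
    (∀ n, x (n + 3) = x n / (exp g * x (n + 2) + x n)) ∧
    ∀ p : ℕ → ℝ, ∀ k : ℕ, 0 < k → (∀ n, p (n + k) = p n) →
      ¬ Filter.Tendsto (fun n => x n - p n) Filter.atTop (nhds 0) := by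
  have hg0 : 0 < g := by linarith
  obtain ⟨t, h1⟩ := itinerary hg pw
  refine ⟨X g t, X_pos g t, fun n => rfl, ?_⟩
  intro p k hk hp
  have hab : exp (-(g * (2285 / 1000 + 1))) < exp (-(g * (227 / 100 + 1))) := by
    apply exp_lt_exp.2
    have : g * (227 / 100 + 1) < g * (2285 / 1000 + 1) :=
      mul_lt_mul_of_pos_left (by norm_num) hg0
    linarith
  refine not_asymp_periodic (m := 73) (r := 0) hab hk (by norm_num) ?_ ?_ hp
  · intro j hj
    rw [mul_comm j 73, add_zero, X_eq hg0]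
    apply exp_le_exp.2
    have := (h1 j).2
    rw [hj] at this
    have h3 : g * (Y g t (73 * j) + 1) ≤ g * (227 / 100 + 1) :=
      mul_le_mul_of_nonneg_left (by simp only [hi] at this; linarith) hg0.le
    linarith
  · intro j hj
    rw [mul_comm j 73, add_zero, X_eq hg0]
    apply exp_le_exp.2
    have := (h1 j).1
    rw [hj] at this
    have h3 : g * (2285 / 1000 + 1) ≤ g * (Y g t (73 * j) + 1) :=
      mul_le_mul_of_nonneg_left (by simp only [lo] at this; linarith) hg0.le
    linarith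

end family

end Pool.Agent.R206.Horse.Z
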